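import Pool.Agent.N878.P24.U2

/-!
# P24: the parity of the Gross sums, `S_PAR`
-/

set_option autoImplicit false

namespace Pool.Agent.N878.P24

open Finset Matrix
open Pool.Agent.Z700 (V3 vec cp hh fac chi12)
open Pool.Agent.N877.P24

theorem rr_three : rr 3 = 8 := by
  unfold rr
  have : (vec 3).card = 8 := by decide +kernel
  rw [this]
  rfl

theorem cc_three : cc 3 = -24 := by
  unfold cc
  rw [if_pos (by norm_num)]
  decide +kernel

theorem card_mul {a b : ℕ} (h : Squarefree (a * b)) :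
    (a * b).primeFactors.card = a.primeFactors.card + b.primeFactors.card := by
  have h1 : Nat.Coprime a b := (Nat.squarefree_mul_iff.1 h).1
  have ha : a ≠ 0 := by rintro rfl; simp at h
  have hb : b ≠ 0 := by rintro rfl; simp at h
  rw [Nat.primeFactors_mul ha hb, Finset.card_union_of_disjoint h1.disjoint_primeFactors]

theorem mod_div {m d q : ℕ} (hd : d ∣ m) : (d % q) * (m / d % q) % q = m % q := by
  rw [← Nat.mul_mod, Nat.mul_div_cancel' hd]

theorem mod8_div {m d r : ℕ} (hd : d ∣ m) (h : d % 8 = 1) (hm : m % 8 = r) : m / d % 8 = r := by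
  have := mod_div (q := 8) hd
  rw [h, hm] at this
  omega

/-- the congruence for the classes `3 m` -/
theorem ind33 (hR : S_R) : ∀ m : ℕ, Cls3 m → 1 < m →
    ∃ g z : ℤ, rr (3 * m : ℕ) = 24 * 2 ^ m.primeFactors.card * g ∧
      cc (3 * m : ℕ) = 24 * 2 ^ m.primeFactors.card * (g + 2 * z) := by
  intro m
  induction m using Nat.strong_induction_on with
  | _ m ih =>
  intro hm hm1
  have hm' := hm
  obtain ⟨hs, h8, h3⟩ := hm
  have hm0 : m ≠ 0 := hs.ne_zero
  set k := m.primeFactors.card with hk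
  have hs3 : Squarefree (3 * m) := by
    rw [Nat.squarefree_mul_iff]
    exact ⟨(Nat.Prime.coprime_iff_not_dvd Nat.prime_three).2 h3, Nat.prime_three.squarefree, hs⟩
  have hc3 : (3 * m).primeFactors.card = k + 1 := by
    rw [card_mul hs3, Nat.Prime.primeFactors Nat.prime_three, Finset.card_singleton, add_comm]
  obtain ⟨g, hg, -⟩ := hR (3 * m) hs3 (by omega) (by omega)
  rw [hc3] at hg
  set R := rr (3 * m : ℕ) with hRd
  set C := cc (3 * m : ℕ) with hCd
  -- the terms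
  set Q : ℕ → ℤ := fun d => 48 * (cp0 (3 * d : ℕ) (3 * (m / d) : ℕ) : ℤ) with hQ
  have hQ1 : ∀ d, d ∣ m → d % 8 = 1 → Q d = 3 * rr (3 * d : ℕ) * rr (3 * (m / d) : ℕ) +
      cc (3 * d : ℕ) * cc (3 * (m / d) : ℕ) := by
    intro d hd hd8
    have h3d : ¬ 3 ∣ d := fun h => h3 (h.trans hd)
    have h3d' : ¬ 3 ∣ m / d := fun h => h3 (h.trans (Nat.div_dvd_of_dvd hd))
    have h8' := mod8_div hd hd8 h8
    exact t_REL33 (3 * d) (3 * (m / d)) (by omega) (by omega) (by omega) (by omega)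
  have hQs : ∀ d, d ∣ m → d % 8 = 1 → Q (m / d) = Q d := by
    intro d hd hd8
    rw [hQ1 d hd hd8, hQ1 _ (Nat.div_dvd_of_dvd hd) (mod8_div hd hd8 h8), Nat.div_div_self hd hm0]
    ring
  have hQone : Q 1 = 24 * (R - C) := by
    rw [hQ1 1 (one_dvd m) (by norm_num), Nat.div_one]
    have : ((3 * 1 : ℕ) : ℤ) = 3 := by norm_num
    rw [this, rr_three, cc_three]
    ring
  have hQd : ∀ d, d ∣ m → d % 8 = 1 → 1 < d → d < m → (576 * 2 ^ (k + 1) : ℤ) ∣ Q d := by
    intro d hd hd8 hd1 hdm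
    rw [hQ1 d hd hd8]
    have e1 : d * (m / d) = m := Nat.mul_div_cancel' hd
    have c1 : Cls3 d := ⟨hs.squarefree_of_dvd hd, hd8, fun h => h3 (h.trans hd)⟩
    have c2 : Cls3 (m / d) := ⟨hs.squarefree_of_dvd (Nat.div_dvd_of_dvd hd), mod8_div hd hd8 h8,
      fun h => h3 (h.trans (Nat.div_dvd_of_dvd hd))⟩
    have hmd1 : 1 < m / d := by
      by_contra hcon
      rcases Nat.le_one_iff_eq_zero_or_eq_one.1 (Nat.not_lt.1 hcon) with h | h
      · rw [h, mul_zero] at e1; omega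
      · rw [h, mul_one] at e1; omega
    obtain ⟨g1, z1, r1, s1⟩ := ih d hdm c1 hd1
    obtain ⟨g2, z2, r2, s2⟩ := ih (m / d) (Nat.div_lt_self (by omega) hd1) c2 hmd1
    have hcard : k = d.primeFactors.card + (m / d).primeFactors.card := by
      rw [hk, ← card_mul (by rw [e1]; exact hs), e1]
    rw [s1, s2, r1, r2, hcard]
    refine ⟨2 * g1 * g2 + g1 * z2 + g2 * z1 + 2 * z1 * z2, ?_⟩
    ring
  -- the sum
  have hsum := t_U33 m hm' hm1
  rw [← hk] at hsum
  set D := m.divisors.filter (fun d => d % 8 = 1) with hD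
  have e1 : 48 * ∑ d ∈ D, (cp0 (3 * d : ℕ) (3 * (m / d) : ℕ) : ℤ) = ∑ d ∈ D, Q d := by
    rw [Finset.mul_sum]
  have e2 : ∑ d ∈ D, Q d = 2 * ∑ d ∈ D.filter (fun d => d * d < m), Q d := by
    rw [← Finset.sum_filter_add_sum_filter_not D (fun d => d * d < m), two_mul]
    congr 1
    refine Finset.sum_nbij' (fun d => m / d) (fun d => m / d) ?_ ?_ ?_ ?_ ?_
    · intro d hd
      rw [Finset.mem_filter, hD, Finset.mem_filter, Nat.mem_divisors] at hd ⊢
      obtain ⟨⟨⟨hdm, -⟩, hd8⟩, hdd⟩ := hd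
      refine ⟨⟨⟨Nat.div_dvd_of_dvd hdm, hm0⟩, mod8_div hdm hd8 h8⟩, ?_⟩
      have e3 : d * (m / d) = m := Nat.mul_div_cancel' hdm
      have hne : d ≠ m / d := by
        intro h
        rw [← h] at e3
        have := Nat.isUnit_iff.1 (hs d ⟨1, by rw [mul_one]; exact e3.symm⟩)
        rw [this] at e3
        omega
      have hd0 : 0 < d := Nat.pos_of_dvd_of_pos hdm (by omega)
      have hlt : m / d < d := by
        by_contra hcon
        have : d < m / d := by omega
        apply hdd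
        calc d * d < d * (m / d) := Nat.mul_lt_mul_of_pos_left this hd0
          _ = m := e3
      have hpos : 0 < m / d := Nat.div_pos (Nat.le_of_dvd (by omega) hdm) hd0
      calc (m / d) * (m / d) < d * (m / d) := Nat.mul_lt_mul_of_pos_right hlt hpos
        _ = m := e3
    · intro d hd
      rw [Finset.mem_filter, hD, Finset.mem_filter, Nat.mem_divisors] at hd ⊢
      obtain ⟨⟨⟨hdm, -⟩, hd8⟩, hdd⟩ := hd
      refine ⟨⟨⟨Nat.div_dvd_of_dvd hdm, hm0⟩, mod8_div hdm hd8 h8⟩, ?_⟩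
      have e3 : d * (m / d) = m := Nat.mul_div_cancel' hdm
      have hd0 : 0 < d := Nat.pos_of_dvd_of_pos hdm (by omega)
      intro hcon
      have hlt : d < m / d := by
        by_contra h
        have : m / d ≤ d := by omega
        have : m ≤ d * d := by
          calc m = d * (m / d) := e3.symm
            _ ≤ d * d := Nat.mul_le_mul_left _ this
        omega
      have : m < (m / d) * (m / d) := by
        calc m = d * (m / d) := e3.symm
          _ < (m / d) * (m / d) := Nat.mul_lt_mul_of_pos_right hlt (by omega)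
      omega
    · intro d hd
      rw [Finset.mem_filter, hD, Finset.mem_filter, Nat.mem_divisors] at hd
      exact Nat.div_div_self hd.1.1.1 hm0
    · intro d hd
      rw [Finset.mem_filter, hD, Finset.mem_filter, Nat.mem_divisors] at hd
      exact Nat.div_div_self hd.1.1.1 hm0
    · intro d hd
      rw [Finset.mem_filter, hD, Finset.mem_filter, Nat.mem_divisors] at hd
      exact (hQs d hd.1.1.1 hd.1.2).symm
  have h1D : 1 ∈ D.filter (fun d => d * d < m) := by
    rw [Finset.mem_filter, hD, Finset.mem_filter, Nat.mem_divisors]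
    exact ⟨⟨⟨one_dvd m, hm0⟩, by norm_num⟩, by omega⟩
  have e3 : (576 * 2 ^ (k + 1) : ℤ) ∣ ∑ d ∈ (D.filter (fun d => d * d < m)).erase 1, Q d := by
    refine Finset.dvd_sum fun d hd => ?_
    rw [Finset.mem_erase, Finset.mem_filter, hD, Finset.mem_filter, Nat.mem_divisors] at hd
    obtain ⟨hd1, ⟨⟨hdm, -⟩, hd8⟩, hdd⟩ := hd
    refine hQd d hdm hd8 (by omega) ?_
    nlinarith
  obtain ⟨c, hc⟩ := hsum
  obtain ⟨w, hw⟩ := e3
  rw [hc, e2, ← Finset.add_sum_erase _ _ h1D, hw, hQone] at e1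
  refine ⟨g, w - c, ?_, ?_⟩
  · rw [hg, pow_succ]; ring
  · have e4 : R = 24 * 2 ^ k * g := by rw [hg, pow_succ]; ring
    have e5 : (2 : ℤ) ^ (k + 1) = 2 * 2 ^ k := by rw [pow_succ']
    rw [e5, e4] at e1
    linarith

/-- the congruence for the classes of the main theorem -/
theorem ind32 (hR : S_R) : ∀ n : ℕ, Cls0 n →
    ∃ g z : ℤ, rr n = 12 * 2 ^ n.primeFactors.card * g ∧ (Odd g ↔ Qc n) ∧
      cc n = 12 * 2 ^ n.primeFactors.card * (g + 2 * z) := by
  intro n
  induction n using Nat.strong_induction_on with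
  | _ n ih =>
  intro hn
  have hn' := hn
  obtain ⟨hs, h24⟩ := hn
  have hn0 : n ≠ 0 := hs.ne_zero
  obtain ⟨g, hg, hgQ⟩ := hR n hs (by omega) (by omega)
  set t := n.primeFactors.card with ht
  set Q : ℕ → ℤ := fun d => 24 * (cp0 (3 * d : ℕ) (n / d : ℕ) : ℤ) with hQ
  have h3 : ¬ 3 ∣ n := by omega
  have hQ1 : ∀ d, d ∣ n → d % 8 = 1 → n / d % 24 = 11 → Q d = 3 * rr (3 * d : ℕ) * rr (n / d : ℕ) +
      cc (3 * d : ℕ) * cc (n / d : ℕ) := by
    intro d hd hd8 h
    have h3d : ¬ 3 ∣ d := fun h => h3 (h.trans hd)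
    exact t_REL32 (3 * d) (n / d) (by omega) (by omega) h
  have hQone : Q 1 = 24 * (rr n - cc n) := by
    rw [hQ1 1 (one_dvd n) (by norm_num) (by rw [Nat.div_one]; exact h24), Nat.div_one]
    have : ((3 * 1 : ℕ) : ℤ) = 3 := by norm_num
    rw [this, rr_three, cc_three]
    ring
  have hQd : ∀ d, d ∣ n → d % 8 = 1 → 1 < d → (288 * 2 ^ (t + 1) : ℤ) ∣ Q d := by
    intro d hd hd8 hd1
    have h3d : ¬ 3 ∣ d := fun h => h3 (h.trans hd)
    have h3d' : ¬ 3 ∣ n / d := fun h => h3 (h.trans (Nat.div_dvd_of_dvd hd))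
    have h8' := mod8_div hd hd8 (show n % 8 = 3 by omega)
    by_cases h32 : n / d % 24 = 11
    swap
    · have : Q d = 0 := by
        have := t_REL31 (3 * d) (n / d) (by omega) (by omega) (by omega)
        simp only [hQ]
        rw [this]
        rfl
      rw [this]
      exact dvd_zero _
    rw [hQ1 d hd hd8 h32]
    have e1 : d * (n / d) = n := Nat.mul_div_cancel' hd
    have c1 : Cls3 d := ⟨hs.squarefree_of_dvd hd, hd8, h3d⟩
    have c2 : Cls0 (n / d) := ⟨hs.squarefree_of_dvd (Nat.div_dvd_of_dvd hd), h32⟩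
    obtain ⟨g1, z1, r1, s1⟩ := ind33 hR d c1 hd1
    obtain ⟨g2, z2, r2, -, s2⟩ := ih (n / d) (Nat.div_lt_self (by omega) hd1) c2
    have hcard : t = d.primeFactors.card + (n / d).primeFactors.card := by
      rw [ht, ← card_mul (by rw [e1]; exact hs), e1]
    rw [s1, s2, r1, r2, hcard]
    refine ⟨2 * g1 * g2 + g1 * z2 + g2 * z1 + 2 * z1 * z2, ?_⟩
    ring
  have hsum := t_U32 n hn'
  rw [← ht] at hsum
  set D := n.divisors.filter (fun d => d % 8 = 1) with hD
  have e1 : 24 * ∑ d ∈ D, (cp0 (3 * d : ℕ) (n / d : ℕ) : ℤ) = ∑ d ∈ D, Q d := by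
    rw [Finset.mul_sum]
  have h1D : 1 ∈ D := by
    rw [hD, Finset.mem_filter, Nat.mem_divisors]
    exact ⟨⟨one_dvd n, hn0⟩, by norm_num⟩
  have e3 : (288 * 2 ^ (t + 1) : ℤ) ∣ ∑ d ∈ D.erase 1, Q d := by
    refine Finset.dvd_sum fun d hd => ?_
    rw [Finset.mem_erase, hD, Finset.mem_filter, Nat.mem_divisors] at hd
    obtain ⟨hd1, ⟨hdn, -⟩, hd8⟩ := hd
    exact hQd d hdn hd8 (by omega)
  obtain ⟨c, hc⟩ := hsum
  obtain ⟨w, hw⟩ := e3
  rw [hc, ← Finset.add_sum_erase _ _ h1D, hw, hQone] at e1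
  refine ⟨g, w - c, hg, hgQ, ?_⟩
  have e5 : (2 : ℤ) ^ (t + 1) = 2 * 2 ^ t := by rw [pow_succ']
  rw [e5, hg] at e1
  linarith

/-- **PAR** from the parity of the number of vectors -/
theorem t_PAR (hR : S_R) : S_PAR := by
  intro n hn
  obtain ⟨g, z, h1, h2, h3⟩ := ind32 hR n hn
  refine ⟨g + 2 * z, h3, ?_⟩
  rw [← h2, Int.odd_add]
  constructor
  · intro h
    exact h.2 (even_two_mul z)
  · intro h
    exact ⟨fun _ => even_two_mul z, fun _ => h⟩

end Pool.Agent.N878.P24
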