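import Pool.Agent.N878.P24.Ext

/-!
# P24: divisibility of the sums of local densities over the divisors
-/

set_option autoImplicit false

namespace Pool.Agent.N878.P24

open Finset
open Pool.Agent.Z700 (hh fac)
open Pool.Agent.N871.P15 (Sg XS XS_dvd XS_sub sum_div)
open Pool.Agent.N877.P24

/-- the behaviour of `D` at the primes of `m` not dividing `D` -/
def Hz (m D : ℕ) : Prop := ∀ l : ℕ, l.Prime → l ∣ m → ¬ l ∣ D → jacobiSym (-(D : ℤ)) l = 1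

theorem three_not {m d : ℕ} (h3 : ¬ 3 ∣ m) (hd : d ∣ m) : ¬ 3 ∣ d := fun h => h3 (h.trans hd)

section pf

variable {q m D d : ℕ}

theorem dat (hm : Squarefree m) (h2 : ¬ 2 ∣ m) (h3 : ¬ 3 ∣ m) (hy : Hy q m D) (hz : Hz m D)
    (hD : D ≠ 0) (hd : d ∣ m) {α : ℕ} (h : GG (3 ^ α * d) D ≠ 0) : ∃ N0 N1 M : ℕ, d = N0 * N1 ∧
      D = 3 ^ D.factorization 3 * 2 ^ D.factorization 2 * (N1 * M) ∧
      Dat N0 N1 M α (D.factorization 2) (D.factorization 3) := by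
  refine dat_of (hm.squarefree_of_dvd hd) (fun h => h2 (h.trans hd)) (fun h => h3 (h.trans hd)) hD
    ?_ ?_ h
  · intro l hl hld hlD
    exact (hy l hl (fun h => h2 ((h ▸ hld).trans hd)) (fun h => h3 ((h ▸ hld).trans hd)) hlD
      (hld.trans hd)).1
  · intro l hl hld hlD
    exact hz l hl (hld.trans hd) hlD

theorem pf7 (hm : Squarefree m) (h2 : ¬ 2 ∣ m) (h3 : ¬ 3 ∣ m) (hy : Hy q m D) (hz : Hz m D)
    (hD : D ≠ 0) (hd : d ∣ m) (hv : Odd (D.factorization 2)) (hw : Even (D.factorization 3))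
    (h7 : d % 8 = 7) : GG d D = 0 := by
  by_contra h
  have e : d = 3 ^ 0 * d := by rw [pow_zero, one_mul]
  rw [e] at h
  obtain ⟨N0, N1, M, e1, e2, e3⟩ := dat hm h2 h3 hy hz hD hd h
  exact e3.seven hv hw (e1 ▸ h7)

theorem pf3 (hm : Squarefree m) (h2 : ¬ 2 ∣ m) (h3 : ¬ 3 ∣ m) (hy : Hy q m D) (hz : Hz m D)
    (hD : D ≠ 0) (hd : d ∣ m) (hv : Odd (D.factorization 2)) (hw : Odd (D.factorization 3))
    (h7 : d % 8 = 3) (h8 : ¬ d % 3 = 2) : GG d D = 0 := by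
  by_contra h
  have e : d = 3 ^ 0 * d := by rw [pow_zero, one_mul]
  rw [e] at h
  obtain ⟨N0, N1, M, e1, e2, e3⟩ := dat hm h2 h3 hy hz hD hd h
  have h9 := e3.three hv hw (e1 ▸ h7)
  rw [← e1, c3_eq] at h9
  split_ifs at h9
  omega

theorem pf1 (hm : Squarefree m) (h2 : ¬ 2 ∣ m) (h3 : ¬ 3 ∣ m) (hy : Hy q m D) (hz : Hz m D)
    (hD : D ≠ 0) (hd : d ∣ m) (hv : Odd (D.factorization 2)) (h7 : d % 8 = 1) :
    fac (3 * d) D 3 * GG (3 * d) D = 2 * GG (3 * d) D := by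
  by_cases h : GG (3 * d) D = 0
  · rw [h]; ring
  congr 1
  have h' : GG (3 ^ 1 * d) D ≠ 0 := by rw [pow_one]; exact h
  obtain ⟨N0, N1, M, e1, e2, e3⟩ := dat hm h2 h3 hy hz hD hd h'
  have h9 := e3.one hv (e1 ▸ h7)
  rw [← e1] at h9
  set v := D.factorization 2 with hvd
  set w := D.factorization 3 with hwd
  have e4 : D / 3 ^ w = 2 ^ v * (N1 * M) := by
    have : D = 3 ^ w * (2 ^ v * (N1 * M)) := by rw [← mul_assoc]; exact e2
    calc D / 3 ^ w = 3 ^ w * (2 ^ v * (N1 * M)) / 3 ^ w := by rw [← this]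
      _ = _ := Nat.mul_div_cancel_left _ (by positivity)
  have hk : jacobiSym (-((2 ^ v * (N1 * M) : ℕ) : ℤ)) 3 = c3 M * c3 N1 := by
    have e5 : (-((2 ^ v * (N1 * M) : ℕ) : ℤ)) = (-1) * 2 ^ v * ((N1 : ℤ) * (M : ℤ)) := by
      push_cast; ring
    have m1 : jacobiSym (-1 : ℤ) 3 = -1 := by norm_num
    have m2 : jacobiSym (2 : ℤ) 3 = -1 := by norm_num
    rw [e5, jacobiSym.mul_left, jacobiSym.mul_left, jacobiSym.mul_left, jacobiSym.pow_left,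
      m1, m2, hv.neg_one_pow]
    unfold c3
    ring
  rw [fac, if_pos (Dvd.intro _ rfl), hh, ← hwd, e4, Nat.mul_div_cancel_left _ (by norm_num : 0 < 3)]
  have hs : Sg (c3 d) := c3_sg (fun h => h3 (h.trans hd))
  split_ifs with hw
  · rw [pow_even' hs hw, mul_one] at h9
    rw [hk, h9]; norm_num
  · rw [pow_odd' hs (Nat.not_even_iff_odd.1 hw)] at h9
    have e6 : (-((d * (2 ^ v * (N1 * M)) : ℕ) : ℤ)) = (-((2 ^ v * (N1 * M) : ℕ) : ℤ)) * (d : ℤ) := by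
      push_cast; ring
    rw [e6, jacobiSym.mul_left, hk]
    have e7 : jacobiSym (d : ℤ) 3 = c3 d := rfl
    rw [e7, h9]; norm_num

end pf

/-- the odd divisors -/
theorem odd_dvd {m d : ℕ} (h2 : ¬ 2 ∣ m) (hd : d ∣ m) : d % 2 = 1 := by
  have : ¬ 2 ∣ d := fun h => h2 (h.trans hd)
  omega

theorem prod_dvd {m : ℕ} {S : Finset ℕ} (hS : S ∈ m.primeFactors.powerset) :
    ∏ p ∈ S, p ∣ m := by
  rw [Finset.mem_powerset] at hS
  calc ∏ p ∈ S, p ∣ ∏ p ∈ m.primeFactors, p := Finset.prod_dvd_prod_of_subset _ _ _ hS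
    _ ∣ m := Nat.prod_primeFactors_dvd m

/-- the sum over the divisors in a class modulo `8` with a weight -/
theorem sum_filter_2 {m : ℕ} (hm : Squarefree m) (h2 : ¬ 2 ∣ m) (r : ℕ)
    (hr : r = 1 ∨ r = 3 ∨ r = 7) (F : ℕ → ℤ)
    (G : Finset ℕ → ℤ) (h : ∀ S ∈ m.primeFactors.powerset, F (∏ p ∈ S, p) = G S) :
    4 * ∑ d ∈ m.divisors.filter (fun d => d % 8 = r), F d =
      ∑ S ∈ m.primeFactors.powerset, (1 + c4 r * c4 (∏ p ∈ S, p)) *
        ((1 + c8 r * c8 (∏ p ∈ S, p)) * G S) := by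
  rw [Finset.sum_filter, sum_div hm, Finset.mul_sum]
  refine Finset.sum_congr rfl fun S hS => ?_
  have ho := odd_dvd h2 (prod_dvd hS)
  rw [h S hS]
  obtain ⟨a1, a3, a5, a7⟩ := c4v
  obtain ⟨b1, b3, b5, b7⟩ := c8v
  rcases hr with rfl | rfl | rfl <;> rcases mod8 ho with h8 | h8 | h8 | h8 <;>
    rw [c4_8 h8, c8_8 h8, h8] <;> simp only [a1, a3, a5, a7, b1, b3, b5, b7] <;> norm_num <;> ring

/-- the sum over the divisors in a class modulo `24` with a weight -/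
theorem sum_filter_3 {m : ℕ} (hm : Squarefree m) (h2 : ¬ 2 ∣ m) (h3 : ¬ 3 ∣ m) (r s : ℕ)
    (hr : r = 1 ∨ r = 3 ∨ r = 7) (hs : s = 1 ∨ s = 2) (F : ℕ → ℤ)
    (G : Finset ℕ → ℤ) (h : ∀ S ∈ m.primeFactors.powerset, F (∏ p ∈ S, p) = G S) :
    8 * ∑ d ∈ m.divisors.filter (fun d => d % 8 = r ∧ d % 3 = s), F d =
      ∑ S ∈ m.primeFactors.powerset, (1 + c4 r * c4 (∏ p ∈ S, p)) *
        ((1 + c8 r * c8 (∏ p ∈ S, p)) * ((1 + c3 s * c3 (∏ p ∈ S, p)) * G S)) := by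
  have key : ∀ S ∈ m.primeFactors.powerset,
      2 * (fun d => if d % 3 = s then F d else 0) (∏ p ∈ S, p) =
        (1 + c3 s * c3 (∏ p ∈ S, p)) * G S := by
    intro S hS
    have h3' : ¬ 3 ∣ ∏ p ∈ S, p := fun h => h3 (h.trans (prod_dvd hS))
    dsimp only
    rw [h S hS, c3_eq, c3_eq]
    have : (∏ p ∈ S, p) % 3 = 1 ∨ (∏ p ∈ S, p) % 3 = 2 := by omega
    rcases hs with rfl | rfl <;> rcases this with h' | h' <;> rw [h'] <;> norm_num
  have e := sum_filter_2 hm h2 r hr (fun d => 2 * (fun d => if d % 3 = s then F d else 0) d)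
    (fun S => (1 + c3 s * c3 (∏ p ∈ S, p)) * G S) key
  rw [← e, ← Finset.mul_sum]
  have e2 : ∑ d ∈ m.divisors.filter (fun d => d % 8 = r ∧ d % 3 = s), F d =
      ∑ d ∈ m.divisors.filter (fun d => d % 8 = r), if d % 3 = s then F d else 0 := by
    rw [← Finset.sum_filter, Finset.filter_filter]
  rw [e2]
  ring

theorem fact_nine {E i : ℕ} (hE : E ≠ 0) (hi : i ≠ 3) :
    (9 * E).factorization i = E.factorization i := by
  rw [Nat.factorization_mul (by norm_num) hE, Finsupp.add_apply]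
  have : (9 : ℕ) = 3 ^ 2 := by norm_num
  rw [this, Nat.Prime.factorization_pow Nat.prime_three, Finsupp.single_eq_of_ne hi, zero_add]

theorem T0_nine {E : ℕ} (hE : E ≠ 0) : T0 (9 * E) = T0 E := by
  unfold T0
  rw [Nat.primeFactors_mul (by norm_num) hE]
  have : (9 : ℕ).primeFactors = {3} := by
    have : (9 : ℕ) = 3 ^ 2 := by norm_num
    rw [this, Nat.primeFactors_prime_pow (by norm_num) Nat.prime_three]
  rw [this]
  ext x
  simp only [Finset.mem_erase, Finset.mem_union, Finset.mem_singleton]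
  tauto

theorem YY_nine {q m E a : ℕ} {S : Finset ℕ} (hE : E ≠ 0) :
    YY q m (9 * E) a S = YY q m E a S := by
  unfold YY
  rw [T0_nine hE]
  refine Finset.prod_congr rfl fun l hl => ?_
  rw [fact_nine hE (mem_T0 hl).2.2.1]

theorem GG1_eq {q m D : ℕ} (hy : Hy q m D) {S : Finset ℕ}
    (hS : S ∈ m.primeFactors.powerset) : GG (∏ p ∈ S, p) D = YY q m D 1 S := by
  have := GG_eq hy (Or.inl rfl) (Finset.mem_powerset.1 hS)
  rwa [one_mul] at this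

/-- the divisibility for the mixed relation -/
theorem div32 {q n D : ℕ} (hq : q = 1 ∨ q = 3) (hn : Squarefree n) (h2 : ¬ 2 ∣ n) (h3 : ¬ 3 ∣ n)
    (hy : Hy q n D) : (2 : ℤ) ^ n.primeFactors.card ∣
      4 * ∑ d ∈ n.divisors.filter (fun d => d % 8 = 1), GG (3 * d) D := by
  rw [sum_filter_2 hn h2 1 (Or.inl rfl) (fun d => GG (3 * d) D) (fun S => YY q n D 3 S)
    (fun S hS => GG_eq hy (Or.inr rfl) (Finset.mem_powerset.1 hS)), ← XS_2 q n D 3 _ _ 1]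
  exact XS_dvd _ _ _ (fun i hi p hp => chi_sg hn h2 h3 hq (I2_sub D hi) hp) _ _ fun p _ => Sg.one

theorem cr {r : ℕ} (hr : r = 1 ∨ r = 3 ∨ r = 7) : Sg (c4 r) ∧ Sg (c8 r) := by
  rcases hr with rfl | rfl | rfl <;> exact ⟨c4_sg (by norm_num), c8_sg (by norm_num)⟩

/-- comparison of the sums over the classes modulo `8` -/
theorem cmp2 {q m D : ℕ} (hq : q = 1 ∨ q = 3) (hm : Squarefree m) (h2 : ¬ 2 ∣ m) (h3 : ¬ 3 ∣ m)
    {a a' r r' : ℕ} (ha : a = 1 ∨ a = 3) (ha' : a' = 1 ∨ a' = 3) (hr : r = 1 ∨ r = 3 ∨ r = 7)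
    (hr' : r' = 1 ∨ r' = 3 ∨ r' = 7) (F F' : ℕ → ℤ)
    (hF : ∀ S ∈ m.primeFactors.powerset, F (∏ p ∈ S, p) = YY q m D a S)
    (hF' : ∀ S ∈ m.primeFactors.powerset, F' (∏ p ∈ S, p) = YY q m D a' S) :
    (2 : ℤ) ^ (m.primeFactors.card + 1) ∣
      4 * ∑ d ∈ m.divisors.filter (fun d => d % 8 = r), F d -
      4 * ∑ d ∈ m.divisors.filter (fun d => d % 8 = r'), F' d := by
  rw [sum_filter_2 hm h2 r hr F _ hF, sum_filter_2 hm h2 r' hr' F' _ hF', ← XS_2 q m D a _ _ 1,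
    ← XS_2 q m D a' _ _ 1]
  exact XS_sub _ _ _ _ (fun i hi p hp => chi_sg hm h2 h3 hq (I2_sub D hi) hp)
    (fun i hi => sg_sg ha (cr hr).1 (cr hr).2 Sg.one (I2_sub D hi))
    (fun i hi => sg_sg ha' (cr hr').1 (cr hr').2 Sg.one (I2_sub D hi)) _ _ Sg.one Sg.one _
    fun p _ => Sg.one

/-- comparison of the sums over the classes modulo `24` -/
theorem cmp3 {q m D : ℕ} (hq : q = 1 ∨ q = 3) (hm : Squarefree m) (h2 : ¬ 2 ∣ m) (h3 : ¬ 3 ∣ m)
    {a a' r r' s s' : ℕ} (ha : a = 1 ∨ a = 3) (ha' : a' = 1 ∨ a' = 3) (hr : r = 1 ∨ r = 3 ∨ r = 7)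
    (hr' : r' = 1 ∨ r' = 3 ∨ r' = 7) (hs : s = 1 ∨ s = 2) (hs' : s' = 1 ∨ s' = 2) (F F' : ℕ → ℤ)
    (hF : ∀ S ∈ m.primeFactors.powerset, F (∏ p ∈ S, p) = YY q m D a S)
    (hF' : ∀ S ∈ m.primeFactors.powerset, F' (∏ p ∈ S, p) = YY q m D a' S) :
    (2 : ℤ) ^ (m.primeFactors.card + 1) ∣
      8 * ∑ d ∈ m.divisors.filter (fun d => d % 8 = r ∧ d % 3 = s), F d -
      8 * ∑ d ∈ m.divisors.filter (fun d => d % 8 = r' ∧ d % 3 = s'), F' d := by
  have c3s : ∀ {s : ℕ}, s = 1 ∨ s = 2 → Sg (c3 s) := by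
    rintro s (rfl | rfl) <;> exact c3_sg (by norm_num)
  rw [sum_filter_3 hm h2 h3 r s hr hs F _ hF, sum_filter_3 hm h2 h3 r' s' hr' hs' F' _ hF',
    ← XS_3 q m D a, ← XS_3 q m D a']
  exact XS_sub _ _ _ _ (fun i hi p hp => chi_sg hm h2 h3 hq hi hp)
    (fun i hi => sg_sg ha (cr hr).1 (cr hr).2 (c3s hs) hi)
    (fun i hi => sg_sg ha' (cr hr').1 (cr hr').2 (c3s hs') hi) _ _ Sg.one Sg.one _
    fun p _ => Sg.one

/-- the divisibility for the relation of the classes `3 m` -/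
theorem div33 {m E : ℕ} (hm : Squarefree m) (h2 : ¬ 2 ∣ m) (h3 : ¬ 3 ∣ m) (hE : E ≠ 0)
    (hy9 : Hy 1 m (9 * E)) (hy : Hy 1 m E) (hz : Hz m E) (hv : Odd (E.factorization 2)) :
    ((2 : ℤ) ^ (m.primeFactors.card + 1) ∣
      4 * (∑ d ∈ m.divisors.filter (fun d => d % 8 = 1), GG (3 * d) (9 * E) -
        (E.factorization 3 : ℤ) *
          ∑ d ∈ m.divisors.filter (fun d => d % 8 = 3 ∧ d % 3 = 2), GG d E)) ∧
    (2 : ℤ) ^ m.primeFactors.card ∣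
      4 * ∑ d ∈ m.divisors.filter (fun d => d % 8 = 3 ∧ d % 3 = 2), GG d E := by
  set g := ∑ d ∈ m.divisors.filter (fun d => d % 8 = 3 ∧ d % 3 = 2), GG d E with hg
  set f := ∑ d ∈ m.divisors.filter (fun d => d % 8 = 1), GG (3 * d) (9 * E) with hf
  have F3 : ∀ S ∈ m.primeFactors.powerset,
      (fun d => GG (3 * d) (9 * E)) (∏ p ∈ S, p) = YY 1 m E 3 S := by
    intro S hS
    rw [← YY_nine hE]
    exact GG_eq hy9 (Or.inr rfl) (Finset.mem_powerset.1 hS)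
  have F1 : ∀ S ∈ m.primeFactors.powerset,
      (fun d => GG d E) (∏ p ∈ S, p) = YY 1 m E 1 S := fun S hS => GG1_eq hy hS
  rcases Nat.even_or_odd (E.factorization 3) with hw | hw
  · have z7 : ∑ d ∈ m.divisors.filter (fun d => d % 8 = 7), GG d E = 0 := by
      refine Finset.sum_eq_zero fun d hd => ?_
      rw [Finset.mem_filter, Nat.mem_divisors] at hd
      exact pf7 hm h2 h3 hy hz hE hd.1.1 hv hw hd.2
    have z7' : ∑ d ∈ m.divisors.filter (fun d => d % 8 = 7 ∧ d % 3 = 1), GG d E = 0 := by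
      refine Finset.sum_eq_zero fun d hd => ?_
      rw [Finset.mem_filter, Nat.mem_divisors] at hd
      exact pf7 hm h2 h3 hy hz hE hd.1.1 hv hw hd.2.1
    have k1 := cmp2 (D := E) (Or.inl rfl) hm h2 h3 (Or.inr rfl) (Or.inl rfl)
      (Or.inl rfl : (1 : ℕ) = 1 ∨ 1 = 3 ∨ 1 = 7) (Or.inr (Or.inr rfl) : (7 : ℕ) = 1 ∨ 7 = 3 ∨ 7 = 7)
      (fun d => GG (3 * d) (9 * E)) (fun d => GG d E) F3 F1
    have k2 := cmp3 (D := E) (Or.inl rfl) hm h2 h3 (Or.inl rfl) (Or.inl rfl)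
      (Or.inr (Or.inl rfl) : (3 : ℕ) = 1 ∨ 3 = 3 ∨ 3 = 7)
      (Or.inr (Or.inr rfl) : (7 : ℕ) = 1 ∨ 7 = 3 ∨ 7 = 7)
      (Or.inr rfl : (2 : ℕ) = 1 ∨ 2 = 2) (Or.inl rfl : (1 : ℕ) = 1 ∨ 1 = 2)
      (fun d => GG d E) (fun d => GG d E) F1 F1
    rw [z7, mul_zero, sub_zero, ← hf] at k1
    rw [z7', mul_zero, sub_zero, ← hg] at k2
    obtain ⟨u, hu⟩ := hw
    constructor
    · have e : 4 * (f - (E.factorization 3 : ℤ) * g) = 4 * f - u * (8 * g) := by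
        rw [hu]; push_cast; ring
      rw [e]
      exact dvd_sub k1 (Dvd.dvd.mul_left k2 _)
    · obtain ⟨c, hc⟩ := k2
      refine ⟨c, ?_⟩
      rw [pow_succ] at hc
      linarith
  · have z3 : ∑ d ∈ m.divisors.filter (fun d => d % 8 = 3), GG d E = g := by
      rw [hg, ← Finset.filter_filter]
      symm
      refine Finset.sum_subset (Finset.filter_subset _ _) ?_
      intro d hd hd'
      rw [Finset.mem_filter] at hd'
      have hd3 : ¬ d % 3 = 2 := fun h => hd' ⟨hd, h⟩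
      rw [Finset.mem_filter, Nat.mem_divisors] at hd
      exact pf3 hm h2 h3 hy hz hE hd.1.1 hv hw hd.2 hd3
    have k1 := cmp2 (D := E) (Or.inl rfl) hm h2 h3 (Or.inr rfl) (Or.inl rfl)
      (Or.inl rfl : (1 : ℕ) = 1 ∨ 1 = 3 ∨ 1 = 7) (Or.inr (Or.inl rfl) : (3 : ℕ) = 1 ∨ 3 = 3 ∨ 3 = 7)
      (fun d => GG (3 * d) (9 * E)) (fun d => GG d E) F3 F1
    rw [z3, ← hf] at k1
    have k2 : (2 : ℤ) ^ m.primeFactors.card ∣ 4 * g := by
      rw [← z3, sum_filter_2 hm h2 3 (Or.inr (Or.inl rfl)) (fun d => GG d E)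
        (fun S => YY 1 m E 1 S) F1, ← XS_2 1 m E 1 _ _ 1]
      exact XS_dvd _ _ _ (fun i hi p hp => chi_sg hm h2 h3 (Or.inl rfl) (I2_sub E hi) hp) _ _
        fun p _ => Sg.one
    refine ⟨?_, k2⟩
    obtain ⟨u, hu⟩ := hw
    have e : 4 * (f - (E.factorization 3 : ℤ) * g) = (4 * f - 4 * g) - (2 * (4 * g)) * u := by
      rw [hu]; push_cast; ring
    rw [e]
    refine dvd_sub k1 (Dvd.dvd.mul_right ?_ _)
    rw [pow_succ, mul_comm]
    exact mul_dvd_mul_left 2 k2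

end Pool.Agent.N878.P24
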