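import Pool.Agent.N878.P24.PF

/-!
# P24: extraction of the data for the product formula
-/

set_option autoImplicit false

namespace Pool.Agent.N878.P24

open Finset
open Pool.Agent.Z700 (hh fac)
open Pool.Agent.N871.P15 (Sg)

theorem jac_prod_right (a : ℤ) (s : Finset ℕ) (f : ℕ → ℕ) (hf : ∀ l ∈ s, f l ≠ 0) :
    jacobiSym a (∏ l ∈ s, f l) = ∏ l ∈ s, jacobiSym a (f l) := by
  classical
  induction s using Finset.induction_on with
  | empty => simp
  | insert b t hb ih =>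
    rw [Finset.prod_insert hb, Finset.prod_insert hb]
    have h1 : NeZero (f b) := ⟨hf b (Finset.mem_insert_self _ _)⟩
    have h2 : NeZero (∏ l ∈ t, f l) :=
      ⟨Finset.prod_ne_zero_iff.2 fun l hl => hf l (Finset.mem_insert_of_mem hl)⟩
    rw [jacobiSym.mul_right, ih fun l hl => hf l (Finset.mem_insert_of_mem hl)]

theorem jac_fact (a : ℤ) {M : ℕ} (hM : M ≠ 0) :
    jacobiSym a M = ∏ l ∈ M.primeFactors, jacobiSym a l ^ M.factorization l := by
  conv_lhs => rw [← Nat.prod_factorization_pow_eq_self hM]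
  rw [Finsupp.prod, Nat.support_factorization, jac_prod_right]
  · refine Finset.prod_congr rfl fun l _ => ?_
    rw [jacobiSym.pow_right]
  · intro l hl
    exact pow_ne_zero _ (Nat.prime_of_mem_primeFactors hl).ne_zero

theorem jac_one (a : ℤ) {M : ℕ} (hM : M ≠ 0)
    (h : ∀ l : ℕ, l.Prime → l ∣ M → jacobiSym a l ^ M.factorization l = 1) : jacobiSym a M = 1 := by
  rw [jac_fact a hM]
  refine Finset.prod_eq_one fun l hl => ?_
  rw [Nat.mem_primeFactors] at hl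
  exact h l hl.1 hl.2.1

theorem geo_neg (n : ℕ) (h : ∑ j ∈ range (n + 1), (-1 : ℤ) ^ j ≠ 0) : Even n := by
  by_contra hn
  rw [Nat.not_even_iff_odd] at hn
  obtain ⟨k, rfl⟩ := hn
  apply h
  clear h
  induction k with
  | zero => decide
  | succ k ih =>
    have e : 2 * (k + 1) + 1 + 1 = (2 * k + 1 + 1) + 1 + 1 := by ring
    rw [e, Finset.sum_range_succ, Finset.sum_range_succ, ih]
    ring

theorem js_sg' {a l : ℕ} (h : Nat.Coprime a l) : Sg (jacobiSym (-(a : ℤ)) l) := by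
  unfold Sg
  apply jacobiSym.eq_one_or_neg_one
  simpa [Int.gcd] using h

theorem sg_of_ne {x : ℤ} (h : Sg x) (h1 : 1 + x ≠ 0) : x = 1 := by
  rcases h with h | h
  · exact h
  · exact absurd (by rw [h]; norm_num) h1

/-- from non-vanishing to data -/
theorem dat_of {d D α : ℕ} (hd : Squarefree d) (hd2 : ¬ 2 ∣ d) (hd3 : ¬ 3 ∣ d) (hD : D ≠ 0)
    (h1 : ∀ l : ℕ, l.Prime → l ∣ d → l ∣ D → D.factorization l = 1)
    (h2 : ∀ l : ℕ, l.Prime → l ∣ d → ¬ l ∣ D → jacobiSym (-(D : ℤ)) l = 1)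
    (h3 : GG (3 ^ α * d) D ≠ 0) : ∃ N0 N1 M : ℕ, d = N0 * N1 ∧
      D = 3 ^ D.factorization 3 * 2 ^ D.factorization 2 * (N1 * M) ∧
      Dat N0 N1 M α (D.factorization 2) (D.factorization 3) := by
  have hd0 : d ≠ 0 := hd.ne_zero
  set v := D.factorization 2 with hv
  set w := D.factorization 3 with hw
  -- decomposition of `D`
  obtain ⟨E, hE, hE2, hE3⟩ : ∃ E, D = 3 ^ w * 2 ^ v * E ∧ ¬ 2 ∣ E ∧ ¬ 3 ∣ E := by
    have a1 : 2 ^ v * (D / 2 ^ v) = D := Nat.ordProj_mul_ordCompl_eq_self D 2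
    have a2 : ¬ 2 ∣ D / 2 ^ v := Nat.not_dvd_ordCompl Nat.prime_two hD
    set D1 := D / 2 ^ v with hD1
    have hD10 : D1 ≠ 0 := by rintro h; rw [h] at a2; exact a2 (dvd_zero _)
    have a3 : 3 ^ D1.factorization 3 * (D1 / 3 ^ D1.factorization 3) = D1 :=
      Nat.ordProj_mul_ordCompl_eq_self D1 3
    have a4 : ¬ 3 ∣ D1 / 3 ^ D1.factorization 3 := Nat.not_dvd_ordCompl Nat.prime_three hD10
    have a5 : D1.factorization 3 = w := by
      rw [hw, ← a1, Nat.factorization_mul (by positivity) hD10, Finsupp.add_apply,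
        Nat.Prime.factorization_pow Nat.prime_two, Finsupp.single_eq_of_ne (by norm_num), zero_add]
    rw [a5] at a3 a4
    refine ⟨D1 / 3 ^ w, ?_, fun h => a2 (a3 ▸ Dvd.dvd.mul_left h _), a4⟩
    calc D = 2 ^ v * D1 := a1.symm
      _ = 2 ^ v * (3 ^ w * (D1 / 3 ^ w)) := by rw [a3]
      _ = _ := by ring
  have hE0 : E ≠ 0 := by rintro rfl; exact hE2 (dvd_zero _)
  set N1 := Nat.gcd d D with hN1
  have hN1d : N1 ∣ d := Nat.gcd_dvd_left _ _
  have hN1D : N1 ∣ D := Nat.gcd_dvd_right _ _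
  have hN1E : N1 ∣ E := by
    have c1 : Nat.Coprime N1 (3 ^ w * 2 ^ v) := by
      refine Nat.Coprime.mul_right (Nat.Coprime.pow_right _ ?_) (Nat.Coprime.pow_right _ ?_)
      · exact ((Nat.Prime.coprime_iff_not_dvd Nat.prime_three).2 fun h => hd3 (h.trans hN1d)).symm
      · exact ((Nat.Prime.coprime_iff_not_dvd Nat.prime_two).2 fun h => hd2 (h.trans hN1d)).symm
    rw [hE] at hN1D
    exact c1.dvd_of_dvd_mul_left hN1D
  obtain ⟨M, hM⟩ := hN1E
  obtain ⟨N0, hN0⟩ := hN1d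
  have hdN : d = N0 * N1 := by rw [hN0]; ring
  have hsq : Squarefree (N0 * N1) := hdN ▸ hd
  have c01 : Nat.Coprime N0 N1 := (Nat.squarefree_mul_iff.1 hsq).1
  have hN0d : N0 ∣ d := ⟨N1, hdN⟩
  have hN1d : N1 ∣ d := ⟨N0, hN0⟩
  have hM0 : M ≠ 0 := by rintro rfl; simp at hM; exact hE0 hM
  have hN10 : N1 ≠ 0 := by rintro h; rw [h] at hM; simp at hM; exact hE0 hM
  have hN00 : N0 ≠ 0 := by rintro rfl; simp at hdN; exact hd0 hdN
  have hDM : D = 3 ^ w * 2 ^ v * (N1 * M) := by rw [← hM]; exact hE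
  have hMD : M ∣ D := by rw [hDM]; exact Dvd.intro_left (3 ^ w * 2 ^ v * N1) (by ring)
  have c1M : Nat.Coprime N1 M := by
    by_contra hcon
    obtain ⟨l, hl, h4, h5⟩ := Nat.Prime.not_coprime_iff_dvd.1 hcon
    have h6 := h1 l hl (h4.trans hN1d) (h4.trans hN1D)
    have h7 : l ^ 2 ∣ D := by
      rw [hDM, sq]
      exact Dvd.dvd.mul_left (mul_dvd_mul h4 h5) _
    have h8 := (Nat.Prime.pow_dvd_iff_le_factorization hl hD).1 h7
    omega
  have c0M : Nat.Coprime N0 M := by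
    by_contra hcon
    obtain ⟨l, hl, h4, h5⟩ := Nat.Prime.not_coprime_iff_dvd.1 hcon
    have h6 : l ∣ N1 := Nat.dvd_gcd (h4.trans hN0d) (h5.trans hMD)
    exact Nat.Prime.not_coprime_iff_dvd.2 ⟨l, hl, h4, h6⟩ c01
  have n2 : ∀ {x : ℕ}, x ∣ d → x % 2 = 1 := fun {x} hx => by
    have : ¬ 2 ∣ x := fun h => hd2 (h.trans hx)
    omega
  have hME : M ∣ E := ⟨N1, by rw [hM]; ring⟩
  have tl : ∀ {l : ℕ}, l.Prime → l ∣ d → l ≠ 2 ∧ l ≠ 3 := fun {l} _ hx =>
    ⟨fun h => hd2 (h ▸ hx), fun h => hd3 (h ▸ hx)⟩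
  have tM : ∀ {l : ℕ}, l.Prime → l ∣ M → l ≠ 2 ∧ l ≠ 3 := fun {l} _ hx =>
    ⟨fun h => hE2 ((h ▸ hx).trans hME), fun h => hE3 ((h ▸ hx).trans hME)⟩
  have hfac : ∀ l ∈ T0 D, fac (3 ^ α * d) D l ≠ 0 := fun l hl h0 =>
    h3 (Finset.prod_eq_zero hl h0)
  refine ⟨N0, N1, M, hdN, hDM, n2 hN0d, n2 hN1d, ?_, fun h => hd3 (h.trans hN0d),
    fun h => hd3 (h.trans hN1d), fun h => hE3 (h.trans hME), c01, c0M, c1M, ?_, ?_, ?_⟩
  · have : ¬ 2 ∣ M := fun h => hE2 (h.trans hME)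
    omega
  · -- the symbol at `M`
    refine jac_one _ hM0 fun l hl hlM => ?_
    obtain ⟨l2, l3⟩ := tM hl hlM
    have hlD : l ∣ D := hlM.trans hMD
    have hlT := mem_T0' hD hl l2 l3 hlD
    have hf := hfac l hlT
    have hld : ¬ l ∣ d := by
      intro h
      have h6 : l ∣ N1 := Nat.dvd_gcd h hlD
      exact Nat.Prime.not_coprime_iff_dvd.2 ⟨l, hl, h6, hlM⟩ c1M
    have hln : ¬ l ∣ 3 ^ α * d := by
      intro h
      rcases (Nat.Prime.dvd_mul hl).1 h with h | h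
      · exact l3 ((Nat.prime_dvd_prime_iff_eq hl Nat.prime_three).1 (hl.dvd_of_dvd_pow h))
      · exact hld h
    rw [fac, if_neg hln] at hf
    have hcop : Nat.Coprime (3 ^ α * d) l := ((Nat.Prime.coprime_iff_not_dvd hl).2 hln).symm
    have hS := js_sg' hcop
    have hvl : M.factorization l = D.factorization l := by
      rw [hDM, Nat.factorization_mul (by positivity) (Nat.mul_ne_zero hN10 hM0),
        Nat.factorization_mul (by positivity) (by positivity), Nat.factorization_mul hN10 hM0,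
        Finsupp.add_apply, Finsupp.add_apply, Finsupp.add_apply,
        Nat.Prime.factorization_pow Nat.prime_two, Nat.Prime.factorization_pow Nat.prime_three,
        Finsupp.single_eq_of_ne l3, Finsupp.single_eq_of_ne l2,
        Nat.factorization_eq_zero_of_not_dvd
          (fun h => Nat.Prime.not_coprime_iff_dvd.2 ⟨l, hl, h, hlM⟩ c1M)]
      ring
    rw [hvl, ← hdN]
    rcases hS with h | h
    · rw [h, one_pow]
    · rw [h] at hf ⊢
      exact (geo_neg _ hf).neg_one_pow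
  · -- the symbol at `N1`
    refine jac_one _ hN10 fun l hl hlN => ?_
    obtain ⟨l2, l3⟩ := tl hl (hlN.trans hN1d)
    have hlD : l ∣ D := hlN.trans hN1D
    have hlT := mem_T0' hD hl l2 l3 hlD
    have hf := hfac l hlT
    have hln : l ∣ 3 ^ α * d := Dvd.dvd.mul_left (hlN.trans hN1d) _
    have hv1 := h1 l hl (hlN.trans hN1d) hlD
    rw [fac, if_pos hln, hh, hv1, if_neg (by decide), pow_one] at hf
    obtain ⟨K, hK⟩ := hlN
    have hKl : ¬ l ∣ K := by
      rintro ⟨c, rfl⟩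
      have : l * l ∣ d := by rw [hdN, hK]; exact ⟨N0 * c, by ring⟩
      exact hl.one_lt.ne' (Nat.isUnit_iff.1 (hd l this))
    have e1 : 3 ^ α * d / l = 3 ^ α * N0 * K := by
      rw [hdN, hK]
      have : 3 ^ α * (N0 * (l * K)) = l * (3 ^ α * N0 * K) := by ring
      rw [this, Nat.mul_div_cancel_left _ hl.pos]
    have e2 : D / l = 3 ^ w * 2 ^ v * (K * M) := by
      have : D = l * (3 ^ w * 2 ^ v * (K * M)) := by rw [hDM, hK]; ring
      rw [this, Nat.mul_div_cancel_left _ hl.pos]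
    have e3 : (-((3 ^ α * N0 * K * (3 ^ w * 2 ^ v * (K * M)) : ℕ) : ℤ)) =
        (-(((3 ^ (α + w) * 2 ^ v * (N0 * M) : ℕ)) : ℤ)) * ((K : ℤ) ^ 2) := by
      push_cast
      rw [pow_add]
      ring
    have hKc : Nat.Coprime K l := ((Nat.Prime.coprime_iff_not_dvd hl).2 hKl).symm
    have e4 : jacobiSym ((K : ℤ) ^ 2) l = 1 := by
      rw [jacobiSym.pow_left, sq]
      exact sq_sg (js_sg hKc)
    rw [e1, e2, e3, jacobiSym.mul_left, e4, mul_one] at hf
    have hcop : Nat.Coprime (3 ^ (α + w) * 2 ^ v * (N0 * M)) l := by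
      rw [Nat.coprime_comm, Nat.Prime.coprime_iff_not_dvd hl]
      intro h
      rcases (Nat.Prime.dvd_mul hl).1 h with h | h
      · rcases (Nat.Prime.dvd_mul hl).1 h with h | h
        · exact l3 ((Nat.prime_dvd_prime_iff_eq hl Nat.prime_three).1 (hl.dvd_of_dvd_pow h))
        · exact l2 ((Nat.prime_dvd_prime_iff_eq hl Nat.prime_two).1 (hl.dvd_of_dvd_pow h))
      · rcases (Nat.Prime.dvd_mul hl).1 h with h | h
        · exact Nat.Prime.not_coprime_iff_dvd.2 ⟨l, hl, h, ⟨K, hK⟩⟩ c01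
        · exact Nat.Prime.not_coprime_iff_dvd.2 ⟨l, hl, ⟨K, hK⟩, h⟩ c1M
    rw [sg_of_ne (js_sg' hcop) hf, one_pow]
  · -- the symbol at `N0`
    refine jac_one _ hN00 fun l hl hlN => ?_
    have hlD : ¬ l ∣ D := by
      intro h
      have h6 : l ∣ N1 := Nat.dvd_gcd (hlN.trans hN0d) h
      exact Nat.Prime.not_coprime_iff_dvd.2 ⟨l, hl, hlN, h6⟩ c01
    rw [← hDM, h2 l hl (hlN.trans hN0d) hlD, one_pow]

end Pool.Agent.N878.P24
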