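import Pool.Agent.N878.P24.Loc

/-!
# P24: the product formula for the symbols `(-n1, -D)`
-/

set_option autoImplicit false

namespace Pool.Agent.N878.P24

open Finset
open Pool.Agent.Z700 (hh fac)
open Pool.Agent.N871.P15 (Sg)

theorem recip {x y : ℕ} (hx : x % 2 = 1) (hy : y % 2 = 1) (hc : Nat.Coprime x y) :
    jacobiSym (x : ℤ) y * jacobiSym (y : ℤ) x = if x % 4 = 3 ∧ y % 4 = 3 then -1 else 1 := by
  have h1 : jacobiSym (y : ℤ) x * jacobiSym (y : ℤ) x = 1 := by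
    have := js_sg hc.symm
    rcases this with h | h <;> rw [h] <;> norm_num
  split_ifs with h
  · rw [jacobiSym.quadratic_reciprocity_three_mod_four h.1 h.2]
    linarith
  · have : x % 4 = 1 ∨ y % 4 = 1 := by omega
    rcases this with h' | h'
    · rw [jacobiSym.quadratic_reciprocity_one_mod_four h' (Nat.odd_iff.2 hy)]
      exact h1
    · rw [← jacobiSym.quadratic_reciprocity_one_mod_four h' (Nat.odd_iff.2 hx)]
      exact h1

theorem j3 {x : ℕ} (hx : x % 2 = 1) (h3 : ¬ 3 ∣ x) : jacobiSym (3 : ℤ) x = c3 x * c4 x := by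
  have h := recip (x := 3) (y := x) (by norm_num) hx
    ((Nat.Prime.coprime_iff_not_dvd Nat.prime_three).2 h3)
  have hs := c3_sg h3
  have e : jacobiSym (x : ℤ) 3 = c3 x := rfl
  have e' : ((3 : ℕ) : ℤ) = 3 := rfl
  rw [e, e'] at h
  have : x % 4 = 1 ∨ x % 4 = 3 := by omega
  rcases this with h4 | h4
  · rw [if_neg (by omega)] at h
    rw [c4_one h4]
    rcases hs with h5 | h5 <;> rw [h5] at h ⊢ <;> linarith
  · rw [if_pos ⟨rfl, h4⟩] at h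
    rw [c4_three h4]
    rcases hs with h5 | h5 <;> rw [h5] at h ⊢ <;> linarith

theorem jneg {x : ℕ} (hx : x % 2 = 1) : jacobiSym (-1 : ℤ) x = c4 x :=
  jacobiSym.at_neg_one (Nat.odd_iff.2 hx)

theorem jtwo {x : ℕ} (hx : x % 2 = 1) : jacobiSym (2 : ℤ) x = c8 x :=
  jacobiSym.at_two (Nat.odd_iff.2 hx)

theorem sq_sg {x : ℤ} (h : Sg x) : x * x = 1 := by
  rcases h with rfl | rfl <;> norm_num

theorem pow_odd' {x : ℤ} (h : Sg x) {v : ℕ} (hv : Odd v) : x ^ v = x := by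
  obtain ⟨k, rfl⟩ := hv
  rw [pow_add, pow_mul, pow_one]
  rcases h with rfl | rfl <;> simp

theorem pow_even' {x : ℤ} (h : Sg x) {v : ℕ} (hv : Even v) : x ^ v = 1 := by
  obtain ⟨k, rfl⟩ := hv
  rcases h with rfl | rfl <;> simp

/-- the data extracted from non-vanishing -/
structure Dat (N0 N1 M α v w : ℕ) : Prop where
  o0 : N0 % 2 = 1
  o1 : N1 % 2 = 1
  oM : M % 2 = 1
  t0 : ¬ 3 ∣ N0
  t1 : ¬ 3 ∣ N1
  tM : ¬ 3 ∣ M
  c01 : Nat.Coprime N0 N1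
  c0M : Nat.Coprime N0 M
  c1M : Nat.Coprime N1 M
  e1 : jacobiSym (-(((3 ^ α * (N0 * N1) : ℕ)) : ℤ)) M = 1
  e2 : jacobiSym (-(((3 ^ (α + w) * 2 ^ v * (N0 * M) : ℕ)) : ℤ)) N1 = 1
  e3 : jacobiSym (-(((3 ^ w * 2 ^ v * (N1 * M) : ℕ)) : ℤ)) N0 = 1

/-- expansion of a symbol -/
theorem jexp {a b x y n : ℕ} (hn : n % 2 = 1) (h3 : ¬ 3 ∣ n) :
    jacobiSym (-(((3 ^ a * 2 ^ b * (x * y) : ℕ)) : ℤ)) n =
      c4 n * (c3 n * c4 n) ^ a * c8 n ^ b * (jacobiSym (x : ℤ) n * jacobiSym (y : ℤ) n) := by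
  have e : (-(((3 ^ a * 2 ^ b * (x * y) : ℕ)) : ℤ)) = (-1) * 3 ^ a * 2 ^ b * ((x : ℤ) * (y : ℤ)) := by
    push_cast; ring
  rw [e, jacobiSym.mul_left, jacobiSym.mul_left, jacobiSym.mul_left, jacobiSym.mul_left,
    jacobiSym.pow_left, jacobiSym.pow_left, jneg hn, j3 hn h3, jtwo hn]

/-- the product of the three relations -/
theorem Dat.prod {N0 N1 M α v w : ℕ} (h : Dat N0 N1 M α v w) (hv : Odd v) :
    c4 M * (c3 M * c4 M) ^ α * (c4 N1 * (c3 N1 * c4 N1) ^ (α + w) * c8 N1) *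
      (c4 N0 * (c3 N0 * c4 N0) ^ w * c8 N0) *
      ((if N0 % 4 = 3 ∧ M % 4 = 3 then -1 else 1) * (if N1 % 4 = 3 ∧ M % 4 = 3 then -1 else 1) *
        (if N0 % 4 = 3 ∧ N1 % 4 = 3 then -1 else 1)) = 1 := by
  have e1 := h.e1
  have e2 := h.e2
  have e3 := h.e3
  have e0 : (3 ^ α * (N0 * N1) : ℕ) = 3 ^ α * 2 ^ 0 * (N0 * N1) := by rw [pow_zero, mul_one]
  rw [e0, jexp h.oM h.tM, pow_zero, mul_one] at e1
  rw [jexp h.o1 h.t1, pow_odd' (c8_sg h.o1) hv] at e2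
  rw [jexp h.o0 h.t0, pow_odd' (c8_sg h.o0) hv] at e3
  rw [← recip h.o0 h.oM h.c0M, ← recip h.o1 h.oM h.c1M, ← recip h.o0 h.o1 h.c01]
  calc _ = (c4 M * (c3 M * c4 M) ^ α * (jacobiSym (N0 : ℤ) M * jacobiSym (N1 : ℤ) M)) *
      (c4 N1 * (c3 N1 * c4 N1) ^ (α + w) * c8 N1 * (jacobiSym (N0 : ℤ) N1 * jacobiSym (M : ℤ) N1)) *
      (c4 N0 * (c3 N0 * c4 N0) ^ w * c8 N0 * (jacobiSym (N1 : ℤ) N0 * jacobiSym (M : ℤ) N0)) := by
        ring
    _ = 1 := by rw [e1, e2, e3]; norm_num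

theorem mod8 {x : ℕ} (h : x % 2 = 1) : x % 8 = 1 ∨ x % 8 = 3 ∨ x % 8 = 5 ∨ x % 8 = 7 := by omega

theorem c4_8 {x r : ℕ} (h : x % 8 = r) : c4 x = c4 r := by
  unfold c4
  congr 1
  have : x % 4 = r % 4 := by omega
  rw [← ZMod.natCast_mod x 4, this, ZMod.natCast_mod]

theorem c8_8 {x r : ℕ} (h : x % 8 = r) : c8 x = c8 r := by
  unfold c8
  congr 1
  rw [← h, ZMod.natCast_mod]

theorem c4v : c4 1 = 1 ∧ c4 3 = -1 ∧ c4 5 = 1 ∧ c4 7 = -1 := by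
  unfold c4; decide

theorem c8v : c8 1 = 1 ∧ c8 3 = -1 ∧ c8 5 = -1 ∧ c8 7 = 1 := by
  unfold c8; decide

theorem Dat.seven {N0 N1 M v w : ℕ} (h : Dat N0 N1 M 0 v w) (hv : Odd v) (hw : Even w)
    (h7 : (N0 * N1) % 8 = 7) : False := by
  have hp := h.prod hv
  have s1 : Sg (c3 N1 * c4 N1) := (c3_sg h.t1).mul (c4_sg h.o1)
  have s0 : Sg (c3 N0 * c4 N0) := (c3_sg h.t0).mul (c4_sg h.o0)
  rw [zero_add, pow_zero, pow_even' s1 hw, pow_even' s0 hw] at hp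
  obtain ⟨a1, a3, a5, a7⟩ := c4v
  obtain ⟨b1, b3, b5, b7⟩ := c8v
  rw [Nat.mul_mod] at h7
  rcases mod8 h.oM with hM | hM | hM | hM <;> rcases mod8 h.o0 with h0 | h0 | h0 | h0 <;>
    rcases mod8 h.o1 with h1 | h1 | h1 | h1 <;> rw [h0, h1] at h7 <;>
    first
    | (exfalso; revert h7; norm_num; done)
    | (rw [c4_8 hM, c4_8 h0, c4_8 h1, c8_8 h0, c8_8 h1] at hp
       simp only [a1, a3, a5, a7, b1, b3, b5, b7, show M % 4 = (M % 8) % 4 by omega,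
         show N0 % 4 = (N0 % 8) % 4 by omega, show N1 % 4 = (N1 % 8) % 4 by omega, hM, h0, h1] at hp
       norm_num at hp)

theorem Dat.three {N0 N1 M v w : ℕ} (h : Dat N0 N1 M 0 v w) (hv : Odd v) (hw : Odd w)
    (h7 : (N0 * N1) % 8 = 3) : c3 (N0 * N1) = -1 := by
  have hp := h.prod hv
  have s1 : Sg (c3 N1 * c4 N1) := (c3_sg h.t1).mul (c4_sg h.o1)
  have s0 : Sg (c3 N0 * c4 N0) := (c3_sg h.t0).mul (c4_sg h.o0)
  rw [zero_add, pow_zero, pow_odd' s1 hw, pow_odd' s0 hw] at hp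
  have e : c3 (N0 * N1) = c3 N0 * c3 N1 := by
    unfold c3; rw [Nat.cast_mul, jacobiSym.mul_left]
  rw [e]
  obtain ⟨a1, a3, a5, a7⟩ := c4v
  obtain ⟨b1, b3, b5, b7⟩ := c8v
  rw [Nat.mul_mod] at h7
  rcases mod8 h.oM with hM | hM | hM | hM <;> rcases mod8 h.o0 with h0 | h0 | h0 | h0 <;>
    rcases mod8 h.o1 with h1 | h1 | h1 | h1 <;> rw [h0, h1] at h7 <;>
    first
    | (exfalso; revert h7; norm_num; done)
    | (rw [c4_8 hM, c4_8 h0, c4_8 h1, c8_8 h0, c8_8 h1] at hp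
       simp only [a1, a3, a5, a7, b1, b3, b5, b7, show M % 4 = (M % 8) % 4 by omega,
         show N0 % 4 = (N0 % 8) % 4 by omega, show N1 % 4 = (N1 % 8) % 4 by omega, hM, h0, h1] at hp
       norm_num at hp
       linarith)

theorem Dat.one {N0 N1 M v w : ℕ} (h : Dat N0 N1 M 1 v w) (hv : Odd v)
    (h7 : (N0 * N1) % 8 = 1) : c3 M * c3 N1 * (c3 (N0 * N1)) ^ w = 1 := by
  have hp := h.prod hv
  have s1 : Sg (c3 N1 * c4 N1) := (c3_sg h.t1).mul (c4_sg h.o1)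
  have s0 : Sg (c3 N0 * c4 N0) := (c3_sg h.t0).mul (c4_sg h.o0)
  have e : c3 (N0 * N1) = c3 N0 * c3 N1 := by
    unfold c3; rw [Nat.cast_mul, jacobiSym.mul_left]
  have s01 : Sg (c3 N0 * c3 N1) := (c3_sg h.t0).mul (c3_sg h.t1)
  have q1 := sq_sg (c3_sg h.t1)
  rw [e]
  obtain ⟨a1, a3, a5, a7⟩ := c4v
  obtain ⟨b1, b3, b5, b7⟩ := c8v
  rw [Nat.mul_mod] at h7
  rw [pow_one, pow_add, pow_one] at hp
  rcases Nat.even_or_odd w with hw | hw
  · rw [pow_even' s1 hw, pow_even' s0 hw] at hp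
    rw [pow_even' s01 hw]
    rcases mod8 h.oM with hM | hM | hM | hM <;> rcases mod8 h.o0 with h0 | h0 | h0 | h0 <;>
      rcases mod8 h.o1 with h1 | h1 | h1 | h1 <;> rw [h0, h1] at h7 <;>
      first
      | (exfalso; revert h7; norm_num; done)
      | (rw [c4_8 hM, c4_8 h0, c4_8 h1, c8_8 h0, c8_8 h1] at hp
         simp only [a1, a3, a5, a7, b1, b3, b5, b7, show M % 4 = (M % 8) % 4 by omega,
           show N0 % 4 = (N0 % 8) % 4 by omega, show N1 % 4 = (N1 % 8) % 4 by omega, hM, h0,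
           h1] at hp
         norm_num at hp
         linarith)
  · rw [pow_odd' s1 hw, pow_odd' s0 hw] at hp
    rw [pow_odd' s01 hw]
    rcases mod8 h.oM with hM | hM | hM | hM <;> rcases mod8 h.o0 with h0 | h0 | h0 | h0 <;>
      rcases mod8 h.o1 with h1 | h1 | h1 | h1 <;> rw [h0, h1] at h7 <;>
      first
      | (exfalso; revert h7; norm_num; done)
      | (rw [c4_8 hM, c4_8 h0, c4_8 h1, c8_8 h0, c8_8 h1] at hp
         simp only [a1, a3, a5, a7, b1, b3, b5, b7, show M % 4 = (M % 8) % 4 by omega,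
           show N0 % 4 = (N0 % 8) % 4 by omega, show N1 % 4 = (N1 % 8) % 4 by omega, hM, h0,
           h1] at hp
         norm_num at hp
         linarith)

end Pool.Agent.N878.P24
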