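import Pool.Agent.N878.P24.Div
import Pool.Agent.N877.P24.Rel2
import Pool.Agent.N763.P24.CP3F

/-!
# P24: the divisibility statements `S_U32` and `S_U33`
-/

set_option autoImplicit false

namespace Pool.Agent.N878.P24

open Finset Matrix
open Pool.Agent.Z700 (V3 vec cp hh fac chi12)
open Pool.Agent.N871.P15 (Sg)
open Pool.Agent.N877.P24

theorem hy_of {q q' m D : ℕ} {b : ℤ} (hm : Squarefree m) (hD : D ≠ 0)
    (hDD : (D : ℤ) = q' * m - b ^ 2)
    (hq : ∀ l : ℕ, l.Prime → l ≠ 2 → l ≠ 3 → ¬ l ∣ q' ∧ ∀ x : ℕ,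
      jacobiSym ((q' * x : ℕ) : ℤ) l = jacobiSym ((q * x : ℕ) : ℤ) l) : Hy q m D := by
  intro l hl l2 l3 hlD hlm
  obtain ⟨hq1, hq2⟩ := hq l hl l2 l3
  obtain ⟨m', rfl⟩ := hlm
  have hm' : ¬ l ∣ m' := by
    rintro ⟨c, rfl⟩
    exact hl.one_lt.ne' (Nat.isUnit_iff.1 (hm l ⟨c, by ring⟩))
  obtain ⟨D', rfl⟩ := hlD
  have hlb : (l : ℤ) ∣ b := by
    have : (l : ℤ) ∣ b ^ 2 := ⟨q' * m' - D', by push_cast at hDD; linarith⟩
    exact (Nat.prime_iff_prime_int.1 hl).dvd_of_dvd_pow this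
  obtain ⟨c, rfl⟩ := hlb
  have hl0 : (l : ℤ) ≠ 0 := by exact_mod_cast hl.ne_zero
  have e2 : (D' : ℤ) = q' * m' - l * c ^ 2 := by
    push_cast at hDD
    have : (l : ℤ) * D' = l * (q' * m' - l * c ^ 2) := by linarith
    exact mul_left_cancel₀ hl0 this
  have hn : ¬ l ∣ D' := by
    intro h
    have h1 : (l : ℤ) ∣ ((q' * m' : ℕ) : ℤ) := by
      have : ((q' * m' : ℕ) : ℤ) = D' + l * c ^ 2 := by push_cast; rw [e2]; ring
      rw [this]
      exact dvd_add (by exact_mod_cast h) (Dvd.intro _ rfl)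
    have h2 : l ∣ q' * m' := by exact_mod_cast h1
    rcases (Nat.Prime.dvd_mul hl).1 h2 with h | h
    · exact hq1 h
    · exact hm' h
  have hD' : D' ≠ 0 := by
    rintro rfl
    simp at hD
  rw [Nat.mul_div_cancel_left _ hl.pos, Nat.mul_div_cancel_left _ hl.pos]
  refine ⟨?_, ?_⟩
  · rw [Nat.factorization_mul hl.ne_zero hD', Finsupp.add_apply, hl.factorization_self,
      Nat.factorization_eq_zero_of_not_dvd hn]
  · rw [← hq2]
    apply jacobiSym.mod_left'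
    rw [e2, Int.sub_mul_emod_self_left]
    push_cast
    rfl

theorem hy_one {m D : ℕ} {b : ℤ} (hm : Squarefree m) (hD : D ≠ 0)
    (hDD : (D : ℤ) = m - b ^ 2) : Hy 1 m D := by
  refine hy_of (q' := 1) (b := b) hm hD (by rw [hDD]; push_cast; ring) ?_
  intro l hl _ _
  exact ⟨fun h => hl.one_lt.ne' (Nat.dvd_one.1 h), fun x => rfl⟩

theorem not_dvd_three {l : ℕ} (hl : l.Prime) (h3 : l ≠ 3) : ¬ l ∣ 3 := fun h =>
  h3 ((Nat.prime_dvd_prime_iff_eq hl Nat.prime_three).1 h)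

theorem hy_three {m D : ℕ} {b : ℤ} (hm : Squarefree m) (hD : D ≠ 0)
    (hDD : (D : ℤ) = 3 * m - b ^ 2) : Hy 3 m D := by
  refine hy_of (q' := 3) (b := b) hm hD (by rw [hDD]; push_cast; ring) ?_
  intro l hl _ h3
  exact ⟨not_dvd_three hl h3, fun x => rfl⟩

theorem hy_nine {m D : ℕ} {b : ℤ} (hm : Squarefree m) (hD : D ≠ 0)
    (hDD : (D : ℤ) = 9 * m - b ^ 2) : Hy 1 m D := by
  refine hy_of (q' := 9) (b := b) hm hD (by rw [hDD]; push_cast; ring) ?_
  intro l hl _ h3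
  refine ⟨fun h => ?_, fun x => ?_⟩
  · have e : (9 : ℕ) = 3 * 3 := by norm_num
    rw [e] at h
    rcases (Nat.Prime.dvd_mul hl).1 h with h | h <;> exact not_dvd_three hl h3 h
  · have e : ((9 * x : ℕ) : ℤ) = (3 : ℤ) ^ 2 * ((1 * x : ℕ) : ℤ) := by push_cast; ring
    rw [e, jacobiSym.mul_left, jacobiSym.sq_one', one_mul]
    rw [Int.gcd_comm]
    have : Nat.Coprime l 3 := (Nat.coprime_primes hl Nat.prime_three).2 h3
    simpa [Int.gcd] using this

theorem hz_of {q' m D : ℕ} {b : ℤ} (hDD : (D : ℤ) = q' * m - b ^ 2) : Hz m D := by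
  intro l hl hlm hlD
  have hlb : ¬ (l : ℤ) ∣ b := by
    intro h
    apply hlD
    have : (l : ℤ) ∣ (D : ℤ) := by
      rw [hDD]
      refine dvd_sub (Dvd.dvd.mul_left ?_ _) (Dvd.dvd.trans h (Dvd.intro _ (sq b).symm))
      exact_mod_cast hlm
    exact_mod_cast this
  obtain ⟨m', rfl⟩ := hlm
  have e : jacobiSym (-(D : ℤ)) l = jacobiSym (b ^ 2) l := by
    apply jacobiSym.mod_left'
    have : -(D : ℤ) = b ^ 2 - (l : ℤ) * (q' * m') := by rw [hDD]; push_cast; ring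
    rw [this, Int.sub_mul_emod_self_left]
  rw [e, jacobiSym.sq_one']
  rw [← Int.isCoprime_iff_gcd_eq_one]
  exact ((Nat.prime_iff_prime_int.1 hl).coprime_iff_not_dvd.2 hlb).symm

/-- the number of pairs with inner product divisible by three as a sum -/
theorem cp0_sum {n1 n2 N B : ℕ} (hN : n1 * n2 = N) (h : N < 9 * B ^ 2) :
    (cp0 n1 n2 : ℤ) = ∑ b ∈ Ioo (-(B : ℤ)) B,
      if (32 : ℤ) ∣ (N : ℤ) - (3 * b) ^ 2 then (cp n1 (3 * b) n2 : ℤ) else 0 := by
  have hNN : (n1 : ℤ) * n2 = N := by exact_mod_cast hN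
  unfold cp0
  rw [Finset.card_eq_sum_card_fiberwise (f := fun q : V3 × V3 => (q.1 ⬝ᵥ q.2) / 3)
    (t := Ioo (-(B : ℤ)) B)]
  · push_cast
    refine Finset.sum_congr rfl fun b _ => ?_
    unfold cp
    rw [Finset.filter_filter]
    split_ifs with h32
    · congr 2
      refine Finset.filter_congr fun q _ => ?_
      rw [hNN]
      constructor
      · rintro ⟨⟨h1, _⟩, h2⟩; omega
      · intro h1
        rw [h1]
        exact ⟨⟨Dvd.intro _ rfl, h32⟩, by omega⟩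
    · rw [Nat.cast_eq_zero, Finset.card_eq_zero, Finset.filter_eq_empty_iff]
      rintro q _ ⟨⟨⟨c, h1⟩, h3⟩, h2⟩
      rw [h1, Int.mul_ediv_cancel_left _ (by norm_num)] at h2
      rw [h1, hNN, h2] at h3
      exact h32 h3
  · rintro ⟨v, w⟩ hq
    rw [Finset.mem_coe, Finset.mem_filter, Finset.mem_product] at hq
    obtain ⟨⟨h1, h2⟩, ⟨c, h3⟩, h5⟩ := hq
    rw [Finset.mem_coe, Finset.mem_Ioo]
    have h4 := cauchy h1 h2
    dsimp only at h3 h4 ⊢
    rw [h3, hNN] at h4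
    rw [h3, Int.mul_ediv_cancel_left _ (by norm_num)]
    have h5 : (N : ℤ) < 9 * (B : ℤ) ^ 2 := by exact_mod_cast h
    have h6 : c ^ 2 < (B : ℤ) ^ 2 := by nlinarith
    exact abs_lt.1 (abs_lt_of_sq_lt_sq h6 (by positivity))

theorem sum_symm (B : ℕ) (g : ℤ → ℤ) (hg : ∀ b, g (-b) = g b) (h0 : g 0 = 0) :
    ∑ b ∈ Ioo (-(B : ℤ)) B, g b = 2 * ∑ b ∈ Ioo (0 : ℤ) B, g b := by
  have e1 : Ioo (-(B : ℤ)) B = ((Ioo (0 : ℤ) B).image (fun x => -x)) ∪
      ((Ioo (-(B : ℤ)) B).filter (fun x => x = 0)) ∪ Ioo (0 : ℤ) B := by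
    ext x
    simp only [Finset.mem_Ioo, Finset.mem_union, Finset.mem_image, Finset.mem_filter]
    constructor
    · rintro ⟨h1, h2⟩
      rcases lt_trichotomy x 0 with h | h | h
      · exact Or.inl (Or.inl ⟨-x, ⟨by omega, by omega⟩, by omega⟩)
      · exact Or.inl (Or.inr ⟨⟨h1, h2⟩, h⟩)
      · exact Or.inr ⟨h, h2⟩
    · rintro ((⟨y, ⟨h1, h2⟩, rfl⟩ | ⟨⟨h1, h2⟩, h3⟩) | ⟨h1, h2⟩) <;> constructor <;> omega
  rw [e1, Finset.sum_union, Finset.sum_union, Finset.sum_image]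
  · have : ∑ x ∈ (Ioo (-(B : ℤ)) B).filter (fun x => x = 0), g x = 0 := by
      refine Finset.sum_eq_zero fun x hx => ?_
      rw [(Finset.mem_filter.1 hx).2, h0]
    rw [this, add_zero, two_mul]
    congr 1
    exact Finset.sum_congr rfl fun x _ => hg x
  · intro x _ y _ hxy
    exact neg_injective hxy
  · rw [Finset.disjoint_left]
    intro x hx hx'
    simp only [Finset.mem_image, Finset.mem_Ioo, Finset.mem_filter] at hx hx'
    omega
  · rw [Finset.disjoint_left]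
    intro x hx hx'
    simp only [Finset.mem_union, Finset.mem_image, Finset.mem_Ioo, Finset.mem_filter] at hx hx'
    omega

theorem prod_split {n1 D : ℕ} (h3 : 3 ∣ D) (hD : D ≠ 0) :
    ∏ l ∈ D.primeFactors.erase 2, fac n1 D l = fac n1 D 3 * GG n1 D := by
  have h3' : 3 ∈ D.primeFactors.erase 2 := by
    simp only [Finset.mem_erase, Nat.mem_primeFactors]
    exact ⟨by norm_num, Nat.prime_three, h3, hD⟩
  rw [← Finset.mul_prod_erase _ _ h3']
  rfl

/-- the summand for a given inner product -/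
def HH (m N : ℕ) (b : ℤ) : ℤ :=
  if (32 : ℤ) ∣ (N : ℤ) - (3 * b) ^ 2 ∧ Odd (((N : ℤ) - (3 * b) ^ 2).toNat.factorization 2) then
    ∑ d ∈ m.divisors.filter (fun d => d % 8 = 1), GG (3 * d) ((N : ℤ) - (3 * b) ^ 2).toNat else 0

/-- the sum over the divisors -/
theorem sum_cp0 {m c B : ℕ} (hs : Squarefree m) (h2 : ¬ 2 ∣ m) (h3 : ¬ 3 ∣ m) (hm8 : (c * m) % 8 = 3)
    (hc3 : c = 1 ∨ c = 3) (hB : 3 * (c * m) < 9 * B ^ 2)
    (hpos : ∀ b ∈ Ioo (-(B : ℤ)) B, 0 < ((3 * (c * m) : ℕ) : ℤ) - (3 * b) ^ 2) :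
    ∑ d ∈ m.divisors.filter (fun d => d % 8 = 1), (cp0 (3 * d : ℕ) (c * (m / d) : ℕ) : ℤ) =
      96 * ∑ b ∈ Ioo (0 : ℤ) B, HH m (3 * (c * m)) b := by
  have key : ∀ d ∈ m.divisors.filter (fun d => d % 8 = 1),
      (cp0 (3 * d : ℕ) (c * (m / d) : ℕ) : ℤ) =
      ∑ b ∈ Ioo (-(B : ℤ)) B,
        if (32 : ℤ) ∣ ((3 * (c * m) : ℕ) : ℤ) - (3 * b) ^ 2 ∧
          Odd ((((3 * (c * m) : ℕ) : ℤ) - (3 * b) ^ 2).toNat.factorization 2) then
        48 * GG (3 * d) (((3 * (c * m) : ℕ) : ℤ) - (3 * b) ^ 2).toNat else 0 := by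
    intro d hd
    rw [Finset.mem_filter, Nat.mem_divisors] at hd
    obtain ⟨⟨hdm, hm0⟩, hd8⟩ := hd
    have e1 : d * (m / d) = m := Nat.mul_div_cancel' hdm
    have e2 : 3 * d * (c * (m / d)) = 3 * (c * m) := by
      calc 3 * d * (c * (m / d)) = 3 * (c * (d * (m / d))) := by ring
        _ = _ := by rw [e1]
    rw [cp0_sum (B := B) e2 hB]
    refine Finset.sum_congr rfl fun b hb' => ?_
    have hp := hpos b hb'
    by_cases h32 : (32 : ℤ) ∣ ((3 * (c * m) : ℕ) : ℤ) - (3 * b) ^ 2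
    swap
    · rw [if_neg h32, if_neg (fun h => h32 h.1)]
    rw [if_pos h32]
    set D := (((3 * (c * m) : ℕ) : ℤ) - (3 * b) ^ 2).toNat with hD
    have hDD : (D : ℤ) = ((3 * (c * m) : ℕ) : ℤ) - (3 * b) ^ 2 := Int.toNat_of_nonneg hp.le
    have hD0 : D ≠ 0 := by omega
    have hn8 : c * (m / d) % 8 = 3 := by
      have h6 : (d * (c * (m / d))) % 8 = 3 := by
        have : d * (c * (m / d)) = c * m := by
          calc d * (c * (m / d)) = c * (d * (m / d)) := by ring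
            _ = _ := by rw [e1]
        rw [this]; exact hm8
      rw [Nat.mul_mod, hd8] at h6
      omega
    have hbo : Odd (3 * b) := by
      rw [← Int.not_even_iff_odd]
      rintro ⟨r, hr⟩
      obtain ⟨u, hu⟩ := h32
      have : ((3 * (c * m) : ℕ) : ℤ) = 2 * (16 * u + 2 * r ^ 2) := by
        rw [hr] at hu; linear_combination hu
      have : 2 ∣ 3 * (c * m) := by
        have h7 : (2 : ℤ) ∣ ((3 * (c * m) : ℕ) : ℤ) := ⟨_, this⟩
        exact_mod_cast h7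
      omega
    have h3D : 3 ∣ D := by
      have : (3 : ℤ) ∣ (D : ℤ) := by
        rw [hDD]
        push_cast
        exact ⟨c * m - 3 * b ^ 2, by ring⟩
      exact_mod_cast this
    have hsq : Squarefree (3 * d) := by
      rw [Nat.squarefree_mul_iff]
      refine ⟨?_, Nat.prime_three.squarefree, hs.squarefree_of_dvd hdm⟩
      exact (Nat.Prime.coprime_iff_not_dvd Nat.prime_three).2 fun h => h3 (h.trans hdm)
    have hPC := Pool.Agent.N763.P24.t_PC (3 * d) (c * (m / d)) (3 * b) D hsq (by omega) hn8 hbo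
      (Nat.pos_of_ne_zero hD0) (by rw [hDD, ← e2]; push_cast; ring)
    rw [hPC]
    by_cases hv : Odd (D.factorization 2)
    · rw [if_pos hv, if_pos ⟨h32, hv⟩, prod_split h3D hD0]
      rcases hc3 with rfl | rfl
      · have hy : Hy 3 m D := hy_three (b := 3 * b) hs hD0 (by rw [hDD]; push_cast; ring)
        have hz : Hz m D := hz_of (q' := 3) (b := 3 * b) (by rw [hDD]; push_cast; ring)
        rw [pf1 hs h2 h3 hy hz hD0 hdm hv hd8]
        ring
      · have hy : Hy 1 m D := hy_nine (b := 3 * b) hs hD0 (by rw [hDD]; push_cast; ring)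
        have hz : Hz m D := hz_of (q' := 9) (b := 3 * b) (by rw [hDD]; push_cast; ring)
        rw [pf1 hs h2 h3 hy hz hD0 hdm hv hd8]
        ring
    · rw [if_neg hv, if_neg (fun h => hv h.2)]
  rw [Finset.sum_congr rfl key, Finset.sum_comm]
  have e3 : ∀ b ∈ Ioo (-(B : ℤ)) B, ∑ d ∈ m.divisors.filter (fun d => d % 8 = 1),
      (if (32 : ℤ) ∣ ((3 * (c * m) : ℕ) : ℤ) - (3 * b) ^ 2 ∧
          Odd ((((3 * (c * m) : ℕ) : ℤ) - (3 * b) ^ 2).toNat.factorization 2) then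
        48 * GG (3 * d) (((3 * (c * m) : ℕ) : ℤ) - (3 * b) ^ 2).toNat else 0) =
      48 * HH m (3 * (c * m)) b := by
    intro b _
    unfold HH
    split_ifs
    · rw [Finset.mul_sum]
    · simp
  rw [Finset.sum_congr rfl e3, ← Finset.mul_sum, sum_symm]
  · ring
  · intro b
    unfold HH
    have : (3 * -b) ^ 2 = (3 * b) ^ 2 := by ring
    rw [this]
  · unfold HH
    rw [if_neg]
    rintro ⟨h, _⟩
    rw [mul_zero, zero_pow (by norm_num), sub_zero] at h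
    have : 2 ∣ 3 * (c * m) := by
      have h7 : (2 : ℤ) ∣ ((3 * (c * m) : ℕ) : ℤ) := Dvd.dvd.trans (by norm_num) h
      exact_mod_cast h7
    omega

end Pool.Agent.N878.P24
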