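import Pool.Agent.N878.P24.U

/-!
# P24: `S_U32` and `S_U33`
-/

set_option autoImplicit false

namespace Pool.Agent.N878.P24

open Finset Matrix
open Pool.Agent.Z700 (V3 vec cp hh fac chi12)
open Pool.Agent.N871.P15 (Sg)
open Pool.Agent.N877.P24

theorem t_U32 : S_U32 := by
  intro n hn
  obtain ⟨hs, h24⟩ := hn
  have h2 : ¬ 2 ∣ n := by omega
  have h3 : ¬ 3 ∣ n := by omega
  set B : ℕ := Nat.sqrt (n / 3) + 1 with hB
  have hB1 : n < 3 * B ^ 2 := by
    have := Nat.lt_succ_sqrt' (n / 3)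
    rw [Nat.succ_eq_add_one, ← hB] at this
    omega
  have hb : ∀ b : ℤ, b ∈ Ioo (-(B : ℤ)) B → 0 < ((3 * (1 * n) : ℕ) : ℤ) - (3 * b) ^ 2 := by
    intro b hb
    rw [Finset.mem_Ioo] at hb
    have h4 : |b| ≤ Nat.sqrt (n / 3) := by
      rw [abs_le]
      constructor <;> omega
    have h5 : b ^ 2 ≤ ((Nat.sqrt (n / 3) ^ 2 : ℕ) : ℤ) := by
      rw [← sq_abs]
      push_cast
      exact pow_le_pow_left₀ (abs_nonneg _) h4 2
    have h6 : ((Nat.sqrt (n / 3) ^ 2 : ℕ) : ℤ) ≤ ((n / 3 : ℕ) : ℤ) := by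
      exact_mod_cast Nat.sqrt_le' (n / 3)
    have h7 : 3 * b ^ 2 ≤ n := by omega
    have h8 : 3 * b ^ 2 ≠ n := by omega
    have h9 : 3 * b ^ 2 < n := lt_of_le_of_ne h7 h8
    push_cast
    nlinarith
  have key := sum_cp0 (c := 1) (B := B) hs h2 h3 (by omega) (Or.inl rfl) (by omega) hb
  simp only [one_mul] at key
  rw [key]
  have hdiv : (2 : ℤ) ^ n.primeFactors.card ∣ 4 * ∑ b ∈ Ioo (0 : ℤ) B, HH n (3 * n) b := by
    rw [Finset.mul_sum]
    refine Finset.dvd_sum fun b hb' => ?_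
    unfold HH
    split_ifs with h
    · have hp := hb b (by rw [Finset.mem_Ioo] at hb' ⊢; omega)
      rw [one_mul] at hp
      set D := (((3 * n : ℕ) : ℤ) - (3 * b) ^ 2).toNat with hD
      have hDD : (D : ℤ) = ((3 * n : ℕ) : ℤ) - (3 * b) ^ 2 := Int.toNat_of_nonneg hp.le
      have hD0 : D ≠ 0 := by omega
      exact div32 (Or.inr rfl) hs h2 h3 (hy_three (b := 3 * b) hs hD0 (by rw [hDD]; push_cast; ring))
    · simp
  obtain ⟨c, hc⟩ := hdiv
  refine ⟨c, ?_⟩
  linear_combination 24 * hc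

theorem sum_four (s : Finset ℤ) (g : ℤ → ℤ)
    (hg : ∀ b ∈ s, g b ≠ 0 → (b % 3 = 1 ∨ b % 3 = 2) ∧ (b % 4 = 1 ∨ b % 4 = 3)) :
    ∑ b ∈ s, g b = ∑ b ∈ s.filter (fun b => b % 3 = 1 ∧ b % 4 = 1), g b +
      ∑ b ∈ s.filter (fun b => b % 3 = 1 ∧ b % 4 = 3), g b +
      ∑ b ∈ s.filter (fun b => b % 3 = 2 ∧ b % 4 = 1), g b +
      ∑ b ∈ s.filter (fun b => b % 3 = 2 ∧ b % 4 = 3), g b := by
  rw [Finset.sum_filter, Finset.sum_filter, Finset.sum_filter, Finset.sum_filter,
    ← Finset.sum_add_distrib, ← Finset.sum_add_distrib, ← Finset.sum_add_distrib]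
  refine Finset.sum_congr rfl fun b hb => ?_
  by_cases h0 : g b = 0
  · simp [h0]
  · obtain ⟨h1, h2⟩ := hg b hb h0
    rcases h1 with h1 | h1 <;> rcases h2 with h2 | h2
    · rw [if_pos ⟨h1, h2⟩, if_neg (by omega), if_neg (by omega), if_neg (by omega)]; ring
    · rw [if_neg (by omega), if_pos ⟨h1, h2⟩, if_neg (by omega), if_neg (by omega)]; ring
    · rw [if_neg (by omega), if_neg (by omega), if_pos ⟨h1, h2⟩, if_neg (by omega)]; ring
    · rw [if_neg (by omega), if_neg (by omega), if_neg (by omega), if_pos ⟨h1, h2⟩]; ring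

/-- the summand of the auxiliary sum -/
def KK (m : ℕ) (d : ℕ) (b : ℤ) : ℤ :=
  if (32 : ℤ) ∣ (m : ℤ) - b ^ 2 then loc3 d ((m : ℤ) - b ^ 2).toNat else 0

theorem loc3_eq (d D : ℕ) : loc3 d D = if Odd (D.factorization 2) then
    (D.factorization 3 : ℤ) * GG d D else 0 := rfl

theorem fact9_2 (b : ℤ) (m : ℕ) (h : 0 < (m : ℤ) - b ^ 2) :
    (((3 * (3 * m) : ℕ) : ℤ) - (3 * b) ^ 2).toNat = 9 * ((m : ℤ) - b ^ 2).toNat := by
  have : ((9 * ((m : ℤ) - b ^ 2).toNat : ℕ) : ℤ) = ((3 * (3 * m) : ℕ) : ℤ) - (3 * b) ^ 2 := by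
    push_cast
    rw [Int.toNat_of_nonneg h.le]
    ring
  rw [← this, Int.toNat_natCast]

theorem t_U33 : S_U33 := by
  intro m hm hm1
  obtain ⟨hs, h8, h3⟩ := hm
  have h2 : ¬ 2 ∣ m := by omega
  have hnsq : ∀ b : ℤ, b ^ 2 ≠ m := by
    intro b hb
    have h1 : b.natAbs * b.natAbs ∣ m := by
      have : ((b.natAbs * b.natAbs : ℕ) : ℤ) = m := by
        push_cast
        rw [← hb, ← sq, sq_abs]
      have : b.natAbs * b.natAbs = m := by exact_mod_cast this
      rw [this]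
    have h6 := Nat.isUnit_iff.1 (hs _ h1)
    have : b ^ 2 = 1 := by
      rw [← Int.natAbs_sq b, h6]; norm_num
    rw [this] at hb
    omega
  set B : ℕ := Nat.sqrt m + 1 with hB
  have hB1 : m < B ^ 2 := by
    have := Nat.lt_succ_sqrt' m
    rwa [Nat.succ_eq_add_one, ← hB] at this
  have hb : ∀ b : ℤ, b ∈ Ioo (-(B : ℤ)) B → 0 < (m : ℤ) - b ^ 2 := by
    intro b hb
    rw [Finset.mem_Ioo] at hb
    have h4 : |b| ≤ Nat.sqrt m := by
      rw [abs_le]
      constructor <;> omega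
    have h5 : b ^ 2 ≤ ((Nat.sqrt m ^ 2 : ℕ) : ℤ) := by
      rw [← sq_abs]
      push_cast
      exact pow_le_pow_left₀ (abs_nonneg _) h4 2
    have h6 : ((Nat.sqrt m ^ 2 : ℕ) : ℤ) ≤ (m : ℤ) := by
      exact_mod_cast Nat.sqrt_le' m
    have h8 := hnsq b
    have h9 : b ^ 2 < m := lt_of_le_of_ne (h5.trans h6) h8
    linarith
  have key := sum_cp0 (c := 3) (B := B) hs h2 h3 (by omega) (Or.inr rfl) (by omega) (by
    intro b hb'
    have := hb b hb'
    push_cast
    nlinarith)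
  rw [key]
  set P := m.divisors.filter (fun d => d % 8 = 3 ∧ d % 3 = 2) with hP
  set k := m.primeFactors.card with hk
  -- the local facts
  have hloc : ∀ b ∈ Ioo (-(B : ℤ)) B,
      ((2 : ℤ) ^ (k + 1) ∣ 4 * (HH m (3 * (3 * m)) b - ∑ d ∈ P, KK m d b)) ∧
      (2 : ℤ) ^ k ∣ 4 * ∑ d ∈ P, KK m d b := by
    intro b hb'
    have hpos := hb b hb'
    set E := ((m : ℤ) - b ^ 2).toNat with hE
    have hEE : (E : ℤ) = m - b ^ 2 := Int.toNat_of_nonneg hpos.le
    have hE0 : E ≠ 0 := by omega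
    have e9 := fact9_2 b m hpos
    rw [← hE] at e9
    by_cases h32 : (32 : ℤ) ∣ (m : ℤ) - b ^ 2
    swap
    · have e1 : HH m (3 * (3 * m)) b = 0 := by
        unfold HH
        rw [if_neg]
        rintro ⟨h, _⟩
        apply h32
        have h4 : ((3 * (3 * m) : ℕ) : ℤ) - (3 * b) ^ 2 = 9 * ((m : ℤ) - b ^ 2) := by
          push_cast; ring
        rw [h4] at h
        omega
      have e2 : ∑ d ∈ P, KK m d b = 0 := Finset.sum_eq_zero fun d _ => by
        unfold KK; rw [if_neg h32]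
      rw [e1, e2]
      simp
    have h32' : (32 : ℤ) ∣ ((3 * (3 * m) : ℕ) : ℤ) - (3 * b) ^ 2 := by
      have h4 : ((3 * (3 * m) : ℕ) : ℤ) - (3 * b) ^ 2 = 9 * ((m : ℤ) - b ^ 2) := by
        push_cast; ring
      rw [h4]
      exact Dvd.dvd.mul_left h32 _
    have f9 : (9 * E).factorization 2 = E.factorization 2 := fact_nine hE0 (by norm_num)
    by_cases hv : Odd (E.factorization 2)
    swap
    · have e1 : HH m (3 * (3 * m)) b = 0 := by
        unfold HH
        rw [if_neg]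
        rintro ⟨_, h⟩
        rw [e9, f9] at h
        exact hv h
      have e2 : ∑ d ∈ P, KK m d b = 0 := Finset.sum_eq_zero fun d _ => by
        unfold KK
        rw [if_pos h32, ← hE, loc3_eq, if_neg hv]
      rw [e1, e2]
      simp
    have hd := div33 hs h2 h3 hE0 (hy_nine (b := 3 * b) hs (Nat.mul_ne_zero (by norm_num) hE0)
      (by push_cast; rw [hEE]; ring)) (hy_one (b := b) hs hE0 hEE)
      (hz_of (q' := 1) (b := b) (by rw [hEE]; push_cast; ring)) hv
    have e1 : HH m (3 * (3 * m)) b =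
        ∑ d ∈ m.divisors.filter (fun d => d % 8 = 1), GG (3 * d) (9 * E) := by
      unfold HH
      rw [e9, if_pos ⟨h32', by rw [f9]; exact hv⟩]
    have e2 : ∑ d ∈ P, KK m d b = (E.factorization 3 : ℤ) * ∑ d ∈ P, GG d E := by
      rw [Finset.mul_sum]
      refine Finset.sum_congr rfl fun d _ => ?_
      unfold KK
      rw [if_pos h32, ← hE, loc3_eq, if_pos hv]
    rw [e1, e2]
    refine ⟨hd.1, ?_⟩
    have e3 : 4 * ((E.factorization 3 : ℤ) * ∑ d ∈ P, GG d E) =
      (E.factorization 3 : ℤ) * (4 * ∑ d ∈ P, GG d E) := by ring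
    rw [e3]
    exact Dvd.dvd.mul_left hd.2 _
  -- the auxiliary sum
  have hred : (2 : ℤ) ^ (k + 1) ∣ 4 * ∑ b ∈ Ioo (0 : ℤ) B, ∑ d ∈ P, KK m d b := by
    have e0 : 2 * ∑ b ∈ Ioo (0 : ℤ) B, ∑ d ∈ P, KK m d b =
        ∑ b ∈ Ioo (-(B : ℤ)) B, ∑ d ∈ P, KK m d b := by
      rw [sum_symm B (fun b => ∑ d ∈ P, KK m d b)]
      · intro b
        have : (-b) ^ 2 = b ^ 2 := by ring
        simp only [KK, this]
      · refine Finset.sum_eq_zero fun d _ => ?_
        unfold KK
        rw [if_neg]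
        intro h
        rw [zero_pow (by norm_num), sub_zero] at h
        omega
    by_cases hm3 : m % 3 = 1
    swap
    · have hz : ∀ b ∈ Ioo (-(B : ℤ)) B, ∑ d ∈ P, KK m d b = 0 := by
        intro b hb'
        have hpos := hb b hb'
        refine Finset.sum_eq_zero fun d _ => ?_
        have h6 : ¬ 3 ∣ ((m : ℤ) - b ^ 2).toNat := by
          intro h
          have h7 : (3 : ℤ) ∣ (m : ℤ) - b ^ 2 := by
            rw [← Int.toNat_of_nonneg hpos.le]
            exact_mod_cast h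
          have h8 : b % 3 = 0 ∨ b % 3 = 1 ∨ b % 3 = 2 := by omega
          rcases h8 with h8 | h8 | h8
          · have : b ^ 2 % 3 = 0 := by rw [sq, Int.mul_emod, h8]; norm_num
            omega
          · have : b ^ 2 % 3 = 1 := by rw [sq, Int.mul_emod, h8]; norm_num
            omega
          · have : b ^ 2 % 3 = 1 := by rw [sq, Int.mul_emod, h8]; norm_num
            omega
        unfold KK
        rw [loc3_eq, Nat.factorization_eq_zero_of_not_dvd h6]
        simp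
      have e1 : 4 * ∑ b ∈ Ioo (0 : ℤ) B, ∑ d ∈ P, KK m d b =
          2 * (2 * ∑ b ∈ Ioo (0 : ℤ) B, ∑ d ∈ P, KK m d b) := by ring
      rw [e1, e0, Finset.sum_eq_zero hz, mul_zero]
      exact dvd_zero _
    -- the sums over the classes
    have hw : ∀ d ∈ P, ∀ r3 r4 : ℤ, (r3 = 1 ∨ r3 = 2) → (r4 = 1 ∨ r4 = 3) →
        2304 * ∑ b ∈ (Ioo (-(B : ℤ)) B).filter (fun b => b % 3 = r3 ∧ b % 4 = r4), KK m d b =
          3 * rr d * rr (m / d : ℕ) + cc d * cc (m / d : ℕ) := by
      intro d hd r3 r4 hr3 hr4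
      rw [hP, Finset.mem_filter, Nat.mem_divisors] at hd
      obtain ⟨⟨hdn, hn0⟩, hd8, hd3⟩ := hd
      have e1 : d * (m / d) = m := Nat.mul_div_cancel' hdn
      have hd3' : m / d % 3 = 2 := by
        have h6 : (d * (m / d)) % 3 = 1 := by rw [e1]; exact hm3
        rw [Nat.mul_mod, hd3] at h6
        have : m / d % 3 = 0 ∨ m / d % 3 = 1 ∨ m / d % 3 = 2 := by omega
        rcases this with h | h | h
        · rw [h] at h6; omega
        · rw [h] at h6; omega
        · exact h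
      have hd8' : m / d % 8 = 3 := by
        have h6 : (d * (m / d)) % 8 = 1 := by rw [e1]; exact h8
        rw [Nat.mul_mod, hd8] at h6
        have : m / d % 8 < 8 := Nat.mod_lt _ (by norm_num)
        interval_cases m / d % 8 <;> omega
      have e2 : (d : ℤ) * ((m / d : ℕ) : ℤ) = m := by exact_mod_cast e1
      rw [← t_REL22 d (m / d) (by omega) (by omega) r3 r4 hr3 hr4 B
        (by rw [e2]; exact_mod_cast hB1) (by positivity), Finset.mul_sum, Finset.mul_sum]
      rw [e2]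
      have e3 : (Ioo (-(B : ℤ)) B).filter
          (fun b : ℤ => b % 3 = r3 ∧ b % 4 = r4 ∧ (32 : ℤ) ∣ (m : ℤ) - b ^ 2) =
          ((Ioo (-(B : ℤ)) B).filter (fun b : ℤ => b % 3 = r3 ∧ b % 4 = r4)).filter
            (fun b : ℤ => (32 : ℤ) ∣ (m : ℤ) - b ^ 2) := by
        rw [Finset.filter_filter]
        refine Finset.filter_congr fun b _ => ?_
        tauto
      rw [e3, Finset.sum_filter (fun b : ℤ => (32 : ℤ) ∣ (m : ℤ) - b ^ 2)]
      refine Finset.sum_congr rfl fun b hb' => ?_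
      rw [Finset.mem_filter] at hb'
      have hpos := hb b hb'.1
      unfold KK
      split_ifs with h32
      · rw [Pool.Agent.N763.P24.f_CP3 d (m / d) b ((m : ℤ) - b ^ 2).toNat
          (hs.squarefree_of_dvd hdn) (by omega) (by omega)
          (by rw [Int.odd_iff]; omega) (by omega) (by omega)
          (by rw [e2]; exact Int.toNat_of_nonneg hpos.le)]
        ring
      · simp
    have hv : ∀ d ∈ P, ∑ b ∈ Ioo (-(B : ℤ)) B, KK m d b =
        4 * ∑ b ∈ (Ioo (-(B : ℤ)) B).filter (fun b => b % 3 = 1 ∧ b % 4 = 1), KK m d b := by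
      intro d hd
      rw [sum_four _ _]
      · have w1 := hw d hd 1 1 (Or.inl rfl) (Or.inl rfl)
        have w2 := hw d hd 1 3 (Or.inl rfl) (Or.inr rfl)
        have w3 := hw d hd 2 1 (Or.inr rfl) (Or.inl rfl)
        have w4 := hw d hd 2 3 (Or.inr rfl) (Or.inr rfl)
        linarith
      · intro b hb' hne
        have hpos := hb b hb'
        have hEE := Int.toNat_of_nonneg hpos.le
        unfold KK at hne
        have h32 : (32 : ℤ) ∣ (m : ℤ) - b ^ 2 := by
          by_contra h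
          exact hne (if_neg h)
        rw [if_pos h32] at hne
        constructor
        · by_contra hcon
          have h6 : b % 3 = 0 := by omega
          apply hne
          have h7 : ¬ 3 ∣ ((m : ℤ) - b ^ 2).toNat := by
            intro h
            have h7 : (3 : ℤ) ∣ (m : ℤ) - b ^ 2 := by
              rw [← hEE]
              exact_mod_cast h
            have : b ^ 2 % 3 = 0 := by rw [sq, Int.mul_emod, h6]; norm_num
            omega
          rw [loc3_eq, Nat.factorization_eq_zero_of_not_dvd h7]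
          simp
        · by_contra hcon
          have h6 : b % 2 = 0 := by omega
          obtain ⟨u, hu⟩ := h32
          obtain ⟨r, hr⟩ : ∃ r, b = 2 * r := ⟨b / 2, by omega⟩
          rw [hr] at hu
          have : (m : ℤ) = 2 * (16 * u + 2 * r ^ 2) := by linear_combination hu
          omega
    have e1 : 4 * ∑ b ∈ Ioo (0 : ℤ) B, ∑ d ∈ P, KK m d b =
        2 * (2 * ∑ b ∈ Ioo (0 : ℤ) B, ∑ d ∈ P, KK m d b) := by ring
    rw [e1, e0, Finset.sum_comm, Finset.sum_congr rfl hv, ← Finset.mul_sum, Finset.sum_comm,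
      pow_succ, mul_comm]
    refine mul_dvd_mul_left 2 ?_
    rw [Finset.mul_sum]
    refine Finset.dvd_sum fun b hb' => ?_
    rw [Finset.mem_filter] at hb'
    exact (hloc b hb'.1).2
  have hfin : (2 : ℤ) ^ (k + 1) ∣ 4 * ∑ b ∈ Ioo (0 : ℤ) B, HH m (3 * (3 * m)) b := by
    have e5 : 4 * ∑ b ∈ Ioo (0 : ℤ) B, HH m (3 * (3 * m)) b =
        ∑ b ∈ Ioo (0 : ℤ) B, 4 * (HH m (3 * (3 * m)) b - ∑ d ∈ P, KK m d b) +
        4 * ∑ b ∈ Ioo (0 : ℤ) B, ∑ d ∈ P, KK m d b := by
      rw [Finset.mul_sum, Finset.mul_sum, ← Finset.sum_add_distrib]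
      refine Finset.sum_congr rfl fun b _ => ?_
      ring
    rw [e5]
    refine dvd_add (Finset.dvd_sum fun b hb' => ?_) hred
    refine (hloc b ?_).1
    rw [Finset.mem_Ioo] at hb' ⊢
    omega
  obtain ⟨c, hc⟩ := hfin
  refine ⟨c, ?_⟩
  linear_combination 24 * hc

end Pool.Agent.N878.P24
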